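import Mathlib

/-! Open unit squares in the plane, given by centre and direction. -/

set_option autoImplicit false

namespace Pool.H10.SQ

open MeasureTheory Set

/-- data of a unit square: centre `(a, b)` and unit direction `(c, s)` -/
structure USq where
  a : ℝ
  b : ℝ
  c : ℝ
  s : ℝ
  cs : c ^ 2 + s ^ 2 = 1

/-- coordinates in the frame of the square -/
def USq.fr (q : USq) (p : ℝ × ℝ) : ℝ × ℝ :=
  (q.c * (p.1 - q.a) + q.s * (p.2 - q.b), -q.s * (p.1 - q.a) + q.c * (p.2 - q.b))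

/-- from frame coordinates to the plane -/
def USq.un (q : USq) (p : ℝ × ℝ) : ℝ × ℝ :=
  (q.a + q.c * p.1 - q.s * p.2, q.b + q.s * p.1 + q.c * p.2)

/-- the open unit square -/
def USq.set (q : USq) : Set (ℝ × ℝ) := q.fr ⁻¹' (Ioo (-(1/2)) (1/2) ×ˢ Ioo (-(1/2)) (1/2))

/-- half of `|sin 2θ|` -/
noncomputable def USq.t (q : USq) : ℝ := |q.c * q.s|

lemma USq.mem (q : USq) (p : ℝ × ℝ) : p ∈ q.set ↔
    ((-(1/2) < q.c * (p.1 - q.a) + q.s * (p.2 - q.b) ∧ q.c * (p.1 - q.a) + q.s * (p.2 - q.b) < 1/2) ∧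
     (-(1/2) < -q.s * (p.1 - q.a) + q.c * (p.2 - q.b) ∧ -q.s * (p.1 - q.a) + q.c * (p.2 - q.b) < 1/2)) := by
  simp only [USq.set, USq.fr, mem_preimage, mem_prod, mem_Ioo]

lemma USq.fr_un (q : USq) (p : ℝ × ℝ) : q.fr (q.un p) = p := by
  have h := q.cs
  ext
  · simp only [USq.fr, USq.un]
    have : q.c * (q.a + q.c * p.1 - q.s * p.2 - q.a) + q.s * (q.b + q.s * p.1 + q.c * p.2 - q.b)
        = (q.c ^ 2 + q.s ^ 2) * p.1 := by ring
    rw [this, h, one_mul]
  · simp only [USq.fr, USq.un]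
    have : -q.s * (q.a + q.c * p.1 - q.s * p.2 - q.a) + q.c * (q.b + q.s * p.1 + q.c * p.2 - q.b)
        = (q.c ^ 2 + q.s ^ 2) * p.2 := by ring
    rw [this, h, one_mul]

lemma USq.un_fr (q : USq) (p : ℝ × ℝ) : q.un (q.fr p) = p := by
  have h := q.cs
  ext
  · simp only [USq.fr, USq.un]
    have : q.a + q.c * (q.c * (p.1 - q.a) + q.s * (p.2 - q.b)) - q.s * (-q.s * (p.1 - q.a) + q.c * (p.2 - q.b))
        = q.a + (q.c ^ 2 + q.s ^ 2) * (p.1 - q.a) := by ring
    rw [this, h, one_mul]; ring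
  · simp only [USq.fr, USq.un]
    have : q.b + q.s * (q.c * (p.1 - q.a) + q.s * (p.2 - q.b)) + q.c * (-q.s * (p.1 - q.a) + q.c * (p.2 - q.b))
        = q.b + (q.c ^ 2 + q.s ^ 2) * (p.2 - q.b) := by ring
    rw [this, h, one_mul]; ring

lemma USq.continuous_fr (q : USq) : Continuous q.fr := by
  unfold USq.fr; fun_prop

lemma USq.isOpen (q : USq) : IsOpen q.set :=
  (isOpen_Ioo.prod isOpen_Ioo).preimage q.continuous_fr

lemma USq.meas (q : USq) : MeasurableSet q.set := q.isOpen.measurableSet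

/-- the linear part of the frame map -/
noncomputable def USq.L (q : USq) : ℝ × ℝ →ₗ[ℝ] ℝ × ℝ :=
  Matrix.toLin (Module.Basis.finTwoProd ℝ) (Module.Basis.finTwoProd ℝ) !![q.c, q.s; -q.s, q.c]

lemma USq.L_apply (q : USq) (p : ℝ × ℝ) : q.L p = (q.c * p.1 + q.s * p.2, -q.s * p.1 + q.c * p.2) := by
  rw [USq.L, Matrix.toLin_finTwoProd_apply]

lemma USq.det_L (q : USq) : LinearMap.det q.L = 1 := by
  rw [USq.L, LinearMap.det_toLin, Matrix.det_fin_two_of]
  have := q.cs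
  nlinarith

lemma USq.vol_pre (q : USq) (A : Set (ℝ × ℝ)) : volume (q.fr ⁻¹' A) = volume A := by
  have h : q.fr ⁻¹' A = (fun p : ℝ × ℝ => p + (-q.a, -q.b)) ⁻¹' (q.L ⁻¹' A) := by
    ext p
    simp only [mem_preimage, USq.L_apply, USq.fr]
    rfl
  rw [h, measure_preimage_add_right]
  rw [Measure.addHaar_preimage_linearMap volume (by rw [q.det_L]; exact one_ne_zero), q.det_L]
  simp

lemma USq.vol (q : USq) : volume q.set = 1 := by
  rw [USq.set, q.vol_pre, Measure.volume_eq_prod, Measure.prod_prod, Real.volume_Ioo]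
  norm_num

/-- `|c| + |s| ≤ 1 + |c s|` -/
lemma USq.sum_le (q : USq) : |q.c| + |q.s| ≤ 1 + q.t := by
  have h := q.cs
  have h1 : |q.c| ^ 2 + |q.s| ^ 2 = 1 := by rw [sq_abs, sq_abs]; exact h
  have h2 : q.t = |q.c| * |q.s| := abs_mul _ _
  rw [h2]
  have h3 := abs_nonneg q.c
  have h4 := abs_nonneg q.s
  nlinarith [mul_nonneg h3 h4, mul_nonneg (mul_nonneg h3 h4) (mul_nonneg h3 h4)]

lemma USq.t_nonneg (q : USq) : 0 ≤ q.t := abs_nonneg _

lemma USq.t_le (q : USq) : q.t ≤ 1 / 2 := by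
  have h := q.cs
  rw [USq.t, abs_le]
  constructor <;> nlinarith [sq_nonneg (q.c + q.s), sq_nonneg (q.c - q.s)]

/-- points of the square are close to the centre -/
lemma USq.outer (q : USq) (p : ℝ × ℝ) (hp : p ∈ q.set) :
    |p.1 - q.a| < (1 + q.t) / 2 ∧ |p.2 - q.b| < (1 + q.t) / 2 := by
  have h := q.cs
  have hs := q.sum_le
  rw [q.mem] at hp
  obtain ⟨⟨h1, h2⟩, h3, h4⟩ := hp
  set u := q.c * (p.1 - q.a) + q.s * (p.2 - q.b) with hu
  set v := -q.s * (p.1 - q.a) + q.c * (p.2 - q.b) with hv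
  have hu' : |u| < 1 / 2 := abs_lt.2 ⟨h1, h2⟩
  have hv' : |v| < 1 / 2 := abs_lt.2 ⟨h3, h4⟩
  have e1 : p.1 - q.a = q.c * u - q.s * v := by
    have : q.c * u - q.s * v = (q.c ^ 2 + q.s ^ 2) * (p.1 - q.a) := by rw [hu, hv]; ring
    rw [this, h, one_mul]
  have e2 : p.2 - q.b = q.s * u + q.c * v := by
    have : q.s * u + q.c * v = (q.c ^ 2 + q.s ^ 2) * (p.2 - q.b) := by rw [hu, hv]; ring
    rw [this, h, one_mul]
  have hc := abs_nonneg q.c
  have hs' := abs_nonneg q.s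
  have hpos : 0 < |q.c| + |q.s| := by
    rcases lt_or_eq_of_le hc with h5 | h5
    · linarith
    · rcases lt_or_eq_of_le hs' with h6 | h6
      · linarith
      · exfalso
        have e1 := abs_eq_zero.1 h5.symm
        have e2 := abs_eq_zero.1 h6.symm
        rw [e1, e2] at h; norm_num at h
  constructor
  · rw [e1]
    have h5 : |q.c * u - q.s * v| ≤ |q.c| * |u| + |q.s| * |v| := by
      rw [← abs_mul, ← abs_mul]; exact abs_sub _ _
    have h6 : |q.c| * |u| + |q.s| * |v| < (|q.c| + |q.s|) * (1 / 2) := by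
      rcases lt_or_eq_of_le hc with h7 | h7
      · nlinarith [mul_lt_mul_of_pos_left hu' h7, mul_le_mul_of_nonneg_left hv'.le hs']
      · have h8 : 0 < |q.s| := by rw [← h7] at hpos; linarith
        nlinarith [mul_lt_mul_of_pos_left hv' h8, mul_le_mul_of_nonneg_left hu'.le hc]
    linarith
  · rw [e2]
    have h5 : |q.s * u + q.c * v| ≤ |q.s| * |u| + |q.c| * |v| := by
      rw [← abs_mul, ← abs_mul]; exact abs_add_le _ _
    have h6 : |q.s| * |u| + |q.c| * |v| < (|q.c| + |q.s|) * (1 / 2) := by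
      rcases lt_or_eq_of_le hc with h7 | h7
      · nlinarith [mul_lt_mul_of_pos_left hv' h7, mul_le_mul_of_nonneg_left hu'.le hs']
      · have h8 : 0 < |q.s| := by rw [← h7] at hpos; linarith
        nlinarith [mul_lt_mul_of_pos_left hu' h8, mul_le_mul_of_nonneg_left hv'.le hc]
    linarith

lemma USq.outer' (q : USq) (p : ℝ × ℝ) (hp : p ∈ q.set) :
    |p.1 - q.a| < 3 / 4 ∧ |p.2 - q.b| < 3 / 4 := by
  have h := q.outer p hp
  have := q.t_le
  exact ⟨by linarith [h.1], by linarith [h.2]⟩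

/-- the square contains an axis-parallel box -/
lemma USq.inner (q : USq) (p : ℝ × ℝ) (h1 : |p.1 - q.a| < (1 - q.t) / 2) (h2 : |p.2 - q.b| < (1 - q.t) / 2) :
    p ∈ q.set := by
  have hs := q.sum_le
  have ht := q.t_nonneg
  have ht' := q.t_le
  have hc := abs_nonneg q.c
  have hs' := abs_nonneg q.s
  have h0 := q.cs
  have hpos : 0 < |q.c| + |q.s| := by
    rcases lt_or_eq_of_le hc with h5 | h5
    · linarith
    · rcases lt_or_eq_of_le hs' with h6 | h6
      · linarith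
      · exfalso
        have e1 := abs_eq_zero.1 h5.symm
        have e2 := abs_eq_zero.1 h6.symm
        rw [e1, e2] at h0; norm_num at h0
  have hb : (|q.c| + |q.s|) * ((1 - q.t) / 2) ≤ 1 / 2 := by nlinarith
  rw [q.mem, ← abs_lt, ← abs_lt]
  constructor
  · have h5 : |q.c * (p.1 - q.a) + q.s * (p.2 - q.b)| ≤ |q.c| * |p.1 - q.a| + |q.s| * |p.2 - q.b| := by
      rw [← abs_mul, ← abs_mul]; exact abs_add_le _ _
    have h6 : |q.c| * |p.1 - q.a| + |q.s| * |p.2 - q.b| < (|q.c| + |q.s|) * ((1 - q.t) / 2) := by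
      rcases lt_or_eq_of_le hc with h7 | h7
      · nlinarith [mul_lt_mul_of_pos_left h1 h7, mul_le_mul_of_nonneg_left h2.le hs']
      · have h8 : 0 < |q.s| := by rw [← h7] at hpos; linarith
        nlinarith [mul_lt_mul_of_pos_left h2 h8, mul_le_mul_of_nonneg_left h1.le hc]
    linarith
  · have h5 : |-q.s * (p.1 - q.a) + q.c * (p.2 - q.b)| ≤ |q.s| * |p.1 - q.a| + |q.c| * |p.2 - q.b| := by
      rw [← abs_neg q.s, ← abs_mul, ← abs_mul]; exact abs_add_le _ _
    have h6 : |q.s| * |p.1 - q.a| + |q.c| * |p.2 - q.b| < (|q.c| + |q.s|) * ((1 - q.t) / 2) := by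
      rcases lt_or_eq_of_le hc with h7 | h7
      · nlinarith [mul_lt_mul_of_pos_left h2 h7, mul_le_mul_of_nonneg_left h1.le hs']
      · have h8 : 0 < |q.s| := by rw [← h7] at hpos; linarith
        nlinarith [mul_lt_mul_of_pos_left h1 h8, mul_le_mul_of_nonneg_left h2.le hc]
    linarith

/-- the square contains a disc of radius `1/2` -/
lemma USq.disc (q : USq) (p : ℝ × ℝ) (h : (p.1 - q.a) ^ 2 + (p.2 - q.b) ^ 2 < 1 / 4) : p ∈ q.set := by
  have hc := q.cs
  have e : (q.c * (p.1 - q.a) + q.s * (p.2 - q.b)) ^ 2 + (-q.s * (p.1 - q.a) + q.c * (p.2 - q.b)) ^ 2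
      = (p.1 - q.a) ^ 2 + (p.2 - q.b) ^ 2 := by
    have : (q.c * (p.1 - q.a) + q.s * (p.2 - q.b)) ^ 2 + (-q.s * (p.1 - q.a) + q.c * (p.2 - q.b)) ^ 2
      = (q.c ^ 2 + q.s ^ 2) * ((p.1 - q.a) ^ 2 + (p.2 - q.b) ^ 2) := by ring
    rw [this, hc, one_mul]
  rw [q.mem, ← abs_lt, ← abs_lt]
  constructor
  · apply abs_lt_of_sq_lt_sq (by nlinarith [sq_nonneg (-q.s * (p.1 - q.a) + q.c * (p.2 - q.b))]) (by norm_num)
  · apply abs_lt_of_sq_lt_sq (by nlinarith [sq_nonneg (q.c * (p.1 - q.a) + q.s * (p.2 - q.b))]) (by norm_num)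

/-- the square `T` seen in the frame `F` -/
def USq.rel (T F : USq) : USq where
  a := F.c * (T.a - F.a) + F.s * (T.b - F.b)
  b := -F.s * (T.a - F.a) + F.c * (T.b - F.b)
  c := T.c * F.c + T.s * F.s
  s := T.s * F.c - T.c * F.s
  cs := by
    have h1 := T.cs
    have h2 := F.cs
    have : (T.c * F.c + T.s * F.s) ^ 2 + (T.s * F.c - T.c * F.s) ^ 2
      = (T.c ^ 2 + T.s ^ 2) * (F.c ^ 2 + F.s ^ 2) := by ring
    rw [this, h1, h2, one_mul]

lemma USq.set_rel (T F : USq) : T.set = F.fr ⁻¹' (T.rel F).set := by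
  ext p
  have h2 := F.cs
  rw [mem_preimage, T.mem, (T.rel F).mem]
  have e1 : (T.rel F).c * ((F.fr p).1 - (T.rel F).a) + (T.rel F).s * ((F.fr p).2 - (T.rel F).b)
      = T.c * (p.1 - T.a) + T.s * (p.2 - T.b) := by
    simp only [USq.rel, USq.fr]
    have : (T.c * F.c + T.s * F.s) *
          (F.c * (p.1 - F.a) + F.s * (p.2 - F.b) - (F.c * (T.a - F.a) + F.s * (T.b - F.b))) +
        (T.s * F.c - T.c * F.s) *
          (-F.s * (p.1 - F.a) + F.c * (p.2 - F.b) - (-F.s * (T.a - F.a) + F.c * (T.b - F.b)))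
        = (F.c ^ 2 + F.s ^ 2) * (T.c * (p.1 - T.a) + T.s * (p.2 - T.b)) := by ring
    rw [this, h2, one_mul]
  have e2 : -(T.rel F).s * ((F.fr p).1 - (T.rel F).a) + (T.rel F).c * ((F.fr p).2 - (T.rel F).b)
      = -T.s * (p.1 - T.a) + T.c * (p.2 - T.b) := by
    simp only [USq.rel, USq.fr]
    have : -(T.s * F.c - T.c * F.s) *
          (F.c * (p.1 - F.a) + F.s * (p.2 - F.b) - (F.c * (T.a - F.a) + F.s * (T.b - F.b))) +
        (T.c * F.c + T.s * F.s) *
          (-F.s * (p.1 - F.a) + F.c * (p.2 - F.b) - (-F.s * (T.a - F.a) + F.c * (T.b - F.b)))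
        = (F.c ^ 2 + F.s ^ 2) * (-T.s * (p.1 - T.a) + T.c * (p.2 - T.b)) := by ring
    rw [this, h2, one_mul]
  rw [e1, e2]

/-- the tilt of `T` is at most the tilt of `F` plus the relative tilt -/
lemma USq.t_tri (T F : USq) : T.t ≤ F.t + (T.rel F).t := by
  have h1 := T.cs
  have h2 := F.cs
  have h3 := (T.rel F).cs
  set C := (T.rel F).c with hC
  set S := (T.rel F).s with hS
  have hC' : C = T.c * F.c + T.s * F.s := rfl
  have hS' : S = T.s * F.c - T.c * F.s := rfl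
  have ec : T.c = F.c * C - F.s * S := by
    have : F.c * C - F.s * S = (F.c ^ 2 + F.s ^ 2) * T.c := by rw [hC', hS']; ring
    rw [this, h2, one_mul]
  have es : T.s = F.s * C + F.c * S := by
    have : F.s * C + F.c * S = (F.c ^ 2 + F.s ^ 2) * T.s := by rw [hC', hS']; ring
    rw [this, h2, one_mul]
  have e : T.c * T.s = F.c * F.s * (C ^ 2 - S ^ 2) + (F.c ^ 2 - F.s ^ 2) * (C * S) := by
    rw [ec, es]; ring
  have b1 : |C ^ 2 - S ^ 2| ≤ 1 := by
    rw [abs_le]; constructor <;> nlinarith [sq_nonneg C, sq_nonneg S]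
  have b2 : |F.c ^ 2 - F.s ^ 2| ≤ 1 := by
    rw [abs_le]; constructor <;> nlinarith [sq_nonneg F.c, sq_nonneg F.s]
  show |T.c * T.s| ≤ |F.c * F.s| + |C * S|
  rw [e]
  refine (abs_add_le _ _).trans ?_
  rw [abs_mul (F.c * F.s), abs_mul (F.c ^ 2 - F.s ^ 2)]
  nlinarith [abs_nonneg (F.c * F.s), abs_nonneg (C * S)]

end Pool.H10.SQ
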