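import Pool.Agent.H10.SQ.Per

/-! Vertical chords of a tilted unit square. -/

set_option autoImplicit false

namespace Pool.H10.SQ

open MeasureTheory Set

/-- vertical chord -/
def vc (q : USq) (x : ℝ) : Set ℝ := Prod.mk x ⁻¹' q.set

lemma mem_vc (q : USq) (x y : ℝ) : y ∈ vc q x ↔ (x, y) ∈ q.set := Iff.rfl

/-- pairs of points of a chord, positive direction -/
lemma vc_pair_pos (q : USq) (hc : 0 < q.c) (hs : 0 < q.s) (x y1 y2 : ℝ) (h1 : y1 ∈ vc q x) (h2 : y2 ∈ vc q x) :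
    q.c * (y2 - y1) < 1 ∧ q.c * q.s * (y2 - y1) < (q.c + q.s) / 2 + (x - q.a) ∧
      q.c * q.s * (y2 - y1) < (q.c + q.s) / 2 - (x - q.a) := by
  have hcs := q.cs
  rw [mem_vc, q.mem] at h1 h2
  obtain ⟨⟨a1, a2⟩, a3, a4⟩ := h1
  obtain ⟨⟨b1, b2⟩, b3, b4⟩ := h2
  simp only at a1 a2 a3 a4 b1 b2 b3 b4
  refine ⟨by linarith, ?_, ?_⟩
  · have m1 := mul_lt_mul_of_pos_left a1 hc
    have m2 := mul_lt_mul_of_pos_left b4 hs
    have e : q.c * q.s * (y2 - y1) = q.s * (-q.s * (x - q.a) + q.c * (y2 - q.b)) - q.c * (q.c * (x - q.a) + q.s * (y1 - q.b))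
        + (q.c ^ 2 + q.s ^ 2) * (x - q.a) := by ring
    rw [e, hcs]
    linarith
  · have m1 := mul_lt_mul_of_pos_left b2 hc
    have m2 := mul_lt_mul_of_pos_left a3 hs
    have e : q.c * q.s * (y2 - y1) = q.c * (q.c * (x - q.a) + q.s * (y2 - q.b)) - q.s * (-q.s * (x - q.a) + q.c * (y1 - q.b))
        - (q.c ^ 2 + q.s ^ 2) * (x - q.a) := by ring
    rw [e, hcs]
    linarith

/-- the square reflected in a horizontal line -/
def USq.fl (q : USq) : USq := ⟨q.a, -q.b, q.c, -q.s, by have := q.cs; nlinarith⟩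

lemma USq.mem_fl (q : USq) (x y : ℝ) : (x, y) ∈ q.fl.set ↔ (x, -y) ∈ q.set := by
  rw [USq.mem, USq.mem]
  simp only [USq.fl]
  constructor
  · rintro ⟨⟨h1, h2⟩, h3, h4⟩
    exact ⟨⟨by linarith, by linarith⟩, by linarith, by linarith⟩
  · rintro ⟨⟨h1, h2⟩, h3, h4⟩
    exact ⟨⟨by linarith, by linarith⟩, by linarith, by linarith⟩

lemma vc_pair (q : USq) (hc : 0 < q.c) (hs : q.s ≠ 0) (x y1 y2 : ℝ) (h1 : y1 ∈ vc q x) (h2 : y2 ∈ vc q x) :
    q.c * (y2 - y1) < 1 ∧ q.c * |q.s| * (y2 - y1) < (q.c + |q.s|) / 2 + (x - q.a) ∧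
      q.c * |q.s| * (y2 - y1) < (q.c + |q.s|) / 2 - (x - q.a) := by
  rcases lt_or_gt_of_ne hs with hs | hs
  · have h1' : -y1 ∈ vc q.fl x := by rw [mem_vc, USq.mem_fl, neg_neg]; exact h1
    have h2' : -y2 ∈ vc q.fl x := by rw [mem_vc, USq.mem_fl, neg_neg]; exact h2
    have := vc_pair_pos q.fl hc (by simp only [USq.fl]; linarith) x (-y2) (-y1) h2' h1'
    simp only [USq.fl] at this
    rw [abs_of_neg hs]
    obtain ⟨g1, g2, g3⟩ := this
    have e1 : q.c * (-y1 - -y2) = q.c * (y2 - y1) := by ring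
    have e2 : q.c * -q.s * (-y1 - -y2) = q.c * -q.s * (y2 - y1) := by ring
    rw [e1] at g1
    rw [e2] at g2 g3
    exact ⟨g1, g2, g3⟩
  · rw [abs_of_pos hs]
    exact vc_pair_pos q hc hs x y1 y2 h1 h2

lemma vc_big_pos (q : USq) (hc : 0 < q.c) (hs : 0 < q.s) (x : ℝ)
    (hx1 : x - q.a ≤ (q.c + q.s) / 2 - q.c * q.s) (hx2 : -((q.c + q.s) / 2 - q.c * q.s) ≤ x - q.a) :
    ∃ l r, 1 ≤ r - l ∧ Ioo l r ⊆ vc q x := by
  have hcs := q.cs
  have hc1 : q.c ≤ 1 := by nlinarith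
  have hs1 : q.s ≤ 1 := by nlinarith
  refine ⟨q.b + max ((-(1/2) - q.c * (x - q.a)) / q.s) ((-(1/2) + q.s * (x - q.a)) / q.c),
    q.b + min ((1/2 - q.c * (x - q.a)) / q.s) ((1/2 + q.s * (x - q.a)) / q.c), ?_, ?_⟩
  · have g1 : 1 ≤ (1/2 - q.c * (x - q.a)) / q.s - (-(1/2) - q.c * (x - q.a)) / q.s := by
      rw [← sub_div, le_div_iff₀ hs]; linarith
    have g2 : 1 ≤ (1/2 + q.s * (x - q.a)) / q.c - (-(1/2) + q.s * (x - q.a)) / q.c := by
      rw [← sub_div, le_div_iff₀ hc]; linarith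
    have g3 : 1 ≤ (1/2 - q.c * (x - q.a)) / q.s - (-(1/2) + q.s * (x - q.a)) / q.c := by
      have e : (1/2 - q.c * (x - q.a)) / q.s - (-(1/2) + q.s * (x - q.a)) / q.c
          = ((q.c + q.s) / 2 - (q.c ^ 2 + q.s ^ 2) * (x - q.a)) / (q.c * q.s) := by field_simp; ring
      rw [e, hcs, le_div_iff₀ (mul_pos hc hs)]; linarith
    have g4 : 1 ≤ (1/2 + q.s * (x - q.a)) / q.c - (-(1/2) - q.c * (x - q.a)) / q.s := by
      have e : (1/2 + q.s * (x - q.a)) / q.c - (-(1/2) - q.c * (x - q.a)) / q.s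
          = ((q.c + q.s) / 2 + (q.c ^ 2 + q.s ^ 2) * (x - q.a)) / (q.c * q.s) := by field_simp; ring
      rw [e, hcs, le_div_iff₀ (mul_pos hc hs)]; linarith
    rcases max_choice ((-(1/2) - q.c * (x - q.a)) / q.s) ((-(1/2) + q.s * (x - q.a)) / q.c) with h1 | h1 <;>
    rcases min_choice ((1/2 - q.c * (x - q.a)) / q.s) ((1/2 + q.s * (x - q.a)) / q.c) with h2 | h2 <;>
    · rw [h1, h2]; linarith
  · rintro y ⟨h1, h2⟩
    have k1 : (-(1/2) - q.c * (x - q.a)) / q.s < y - q.b := by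
      have := le_max_left ((-(1/2) - q.c * (x - q.a)) / q.s) ((-(1/2) + q.s * (x - q.a)) / q.c); linarith
    have k2 : (-(1/2) + q.s * (x - q.a)) / q.c < y - q.b := by
      have := le_max_right ((-(1/2) - q.c * (x - q.a)) / q.s) ((-(1/2) + q.s * (x - q.a)) / q.c); linarith
    have k3 : y - q.b < (1/2 - q.c * (x - q.a)) / q.s := by
      have := min_le_left ((1/2 - q.c * (x - q.a)) / q.s) ((1/2 + q.s * (x - q.a)) / q.c); linarith
    have k4 : y - q.b < (1/2 + q.s * (x - q.a)) / q.c := by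
      have := min_le_right ((1/2 - q.c * (x - q.a)) / q.s) ((1/2 + q.s * (x - q.a)) / q.c); linarith
    rw [div_lt_iff₀ hs] at k1
    rw [div_lt_iff₀ hc] at k2
    rw [lt_div_iff₀ hs] at k3
    rw [lt_div_iff₀ hc] at k4
    rw [mem_vc, q.mem]
    simp only
    exact ⟨⟨by linarith, by linarith⟩, by linarith, by linarith⟩

lemma vc_big (q : USq) (hc : 0 < q.c) (hs : q.s ≠ 0) (x : ℝ)
    (hx : |x - q.a| ≤ (q.c + |q.s|) / 2 - q.c * |q.s|) :
    ∃ l r, 1 ≤ r - l ∧ Ioo l r ⊆ vc q x := by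
  rw [abs_le] at hx
  rcases lt_or_gt_of_ne hs with hs | hs
  · rw [abs_of_neg hs] at hx
    obtain ⟨l, r, h1, h2⟩ := vc_big_pos q.fl hc (by simp only [USq.fl]; linarith) x
      (by simp only [USq.fl]; linarith [hx.2]) (by simp only [USq.fl]; linarith [hx.1])
    refine ⟨-r, -l, by linarith, ?_⟩
    rintro y ⟨g1, g2⟩
    have : -y ∈ vc q.fl x := h2 ⟨by linarith, by linarith⟩
    rw [mem_vc, USq.mem_fl, neg_neg] at this
    exact this
  · rw [abs_of_pos hs] at hx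
    exact vc_big_pos q hc hs x hx.2 hx.1

lemma vc_vol_le (q : USq) (x L : ℝ) (h : ∀ y1 ∈ vc q x, ∀ y2 ∈ vc q x, y2 - y1 ≤ L) :
    volume (vc q x) ≤ ENNReal.ofReal L := by
  refine (Real.volume_le_diam _).trans (Metric.ediam_le ?_)
  intro y1 h1 y2 h2
  rw [edist_dist, Real.dist_eq]
  apply ENNReal.ofReal_le_ofReal
  rw [abs_le]
  exact ⟨by linarith [h y1 h1 y2 h2], by linarith [h y2 h2 y1 h1]⟩

lemma vc_le_c (q : USq) (hc : 0 < q.c) (hs : q.s ≠ 0) (x : ℝ) : volume (vc q x) ≤ ENNReal.ofReal (1 / q.c) := by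
  apply vc_vol_le
  intro y1 h1 y2 h2
  rw [le_div_iff₀ hc]
  have := (vc_pair q hc hs x y1 y2 h1 h2).1
  linarith

lemma vc_le_l (q : USq) (hc : 0 < q.c) (hs : q.s ≠ 0) (x : ℝ) :
    volume (vc q x) ≤ ENNReal.ofReal (((q.c + |q.s|) / 2 + (x - q.a)) / (q.c * |q.s|)) := by
  apply vc_vol_le
  intro y1 h1 y2 h2
  rw [le_div_iff₀ (mul_pos hc (abs_pos.2 hs))]
  have := (vc_pair q hc hs x y1 y2 h1 h2).2.1
  linarith

lemma vc_le_r (q : USq) (hc : 0 < q.c) (hs : q.s ≠ 0) (x : ℝ) :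
    volume (vc q x) ≤ ENNReal.ofReal (((q.c + |q.s|) / 2 - (x - q.a)) / (q.c * |q.s|)) := by
  apply vc_vol_le
  intro y1 h1 y2 h2
  rw [le_div_iff₀ (mul_pos hc (abs_pos.2 hs))]
  have := (vc_pair q hc hs x y1 y2 h1 h2).2.2
  linarith

lemma vc_empty (q : USq) (hc : 0 < q.c) (hs : q.s ≠ 0) (x : ℝ)
    (hx : x - q.a ≤ -((q.c + |q.s|) / 2) ∨ (q.c + |q.s|) / 2 ≤ x - q.a) : volume (vc q x) = 0 := by
  have : vc q x = ∅ := by
    rw [Set.eq_empty_iff_forall_notMem]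
    intro y hy
    have h1 := vc_pair q hc hs x y y hy hy
    rw [sub_self, mul_zero, mul_zero] at h1
    rcases hx with h | h
    · linarith [h1.2.1]
    · linarith [h1.2.2]
  rw [this, measure_empty]

end Pool.H10.SQ
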