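import Pool.Agent.H10.SQ.Master

/-! From closed squares to packings of open unit squares. -/

set_option autoImplicit false

namespace Pool.H10.SQ

open MeasureTheory Set

/-- The closed square with corner `(x, y)`, side `s` and direction `θ`. -/
def CSq (x y θ s : ℝ) : Set (ℝ × ℝ) :=
  {p : ℝ × ℝ | ∃ a ∈ Set.Icc (0:ℝ) s, ∃ b ∈ Set.Icc (0:ℝ) s,
    p = (x + a * Real.cos θ - b * Real.sin θ, y + a * Real.sin θ + b * Real.cos θ)}

lemma USq.norm (q : USq) : ∃ r : USq, r.set = q.set ∧ |r.s| ≤ r.c := by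
  rcases le_total |q.s| |q.c| with h | h
  · rcases le_total 0 q.c with hc | hc
    · exact ⟨q, rfl, by rwa [abs_of_nonneg hc] at h⟩
    · refine ⟨q.rot.rot, by rw [USq.set_rot, USq.set_rot], ?_⟩
      simp only [USq.rot]
      rw [abs_neg]
      rwa [abs_of_nonpos hc] at h
  · rcases le_total 0 q.s with hs | hs
    · refine ⟨q.rot.rot.rot, by rw [USq.set_rot, USq.set_rot, USq.set_rot], ?_⟩
      simp only [USq.rot]
      rw [neg_neg, abs_neg]
      rwa [abs_of_nonneg hs] at h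
    · refine ⟨q.rot, by rw [USq.set_rot], ?_⟩
      simp only [USq.rot]
      rwa [abs_of_nonpos hs] at h

/-- the open unit square of a closed square of side `s`, scaled by `1/s` -/
noncomputable def toU (x y θ s : ℝ) : USq :=
  ⟨(x + s / 2 * (Real.cos θ - Real.sin θ)) / s, (y + s / 2 * (Real.sin θ + Real.cos θ)) / s, Real.cos θ, Real.sin θ,
    Real.cos_sq_add_sin_sq θ⟩

lemma toU_sub (x y θ s : ℝ) (hs : 0 < s) (p : ℝ × ℝ) (hp : p ∈ (toU x y θ s).set) :
    (s * p.1, s * p.2) ∈ interior (CSq x y θ s) := by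
  have hcs := Real.cos_sq_add_sin_sq θ
  set c := Real.cos θ with hc
  set σ := Real.sin θ with hσ
  -- the open square
  set O : Set (ℝ × ℝ) := {z | (0 < c * (z.1 - x) + σ * (z.2 - y) ∧ c * (z.1 - x) + σ * (z.2 - y) < s) ∧
    (0 < -σ * (z.1 - x) + c * (z.2 - y) ∧ -σ * (z.1 - x) + c * (z.2 - y) < s)} with hO
  have hOo : IsOpen O := by
    have f1 : Continuous (fun z : ℝ × ℝ => c * (z.1 - x) + σ * (z.2 - y)) := by fun_prop
    have f2 : Continuous (fun z : ℝ × ℝ => -σ * (z.1 - x) + c * (z.2 - y)) := by fun_prop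
    exact ((isOpen_lt continuous_const f1).inter (isOpen_lt f1 continuous_const)).inter
      ((isOpen_lt continuous_const f2).inter (isOpen_lt f2 continuous_const))
  have hOsub : O ⊆ CSq x y θ s := by
    rintro z ⟨⟨g1, g2⟩, g3, g4⟩
    refine ⟨c * (z.1 - x) + σ * (z.2 - y), ⟨g1.le, g2.le⟩, -σ * (z.1 - x) + c * (z.2 - y), ⟨g3.le, g4.le⟩, ?_⟩
    rw [← hc, ← hσ]
    ext
    · simp only
      have : x + (c * (z.1 - x) + σ * (z.2 - y)) * c - (-σ * (z.1 - x) + c * (z.2 - y)) * σ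
          = x + (c ^ 2 + σ ^ 2) * (z.1 - x) := by ring
      rw [this, hcs]; ring
    · simp only
      have : y + (c * (z.1 - x) + σ * (z.2 - y)) * σ + (-σ * (z.1 - x) + c * (z.2 - y)) * c
          = y + (c ^ 2 + σ ^ 2) * (z.2 - y) := by ring
      rw [this, hcs]; ring
  refine interior_maximal hOsub hOo ?_
  rw [USq.mem] at hp
  simp only [toU, ← hc, ← hσ] at hp
  obtain ⟨⟨h1, h2⟩, h3, h4⟩ := hp
  have e1 : c * (s * p.1 - x) + σ * (s * p.2 - y) =
      s * (c * (p.1 - (x + s / 2 * (c - σ)) / s) + σ * (p.2 - (y + s / 2 * (σ + c)) / s)) + s / 2 * (c ^ 2 + σ ^ 2) := by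
    field_simp; ring
  have e2 : -σ * (s * p.1 - x) + c * (s * p.2 - y) =
      s * (-σ * (p.1 - (x + s / 2 * (c - σ)) / s) + c * (p.2 - (y + s / 2 * (σ + c)) / s)) + s / 2 * (c ^ 2 + σ ^ 2) := by
    field_simp; ring
  rw [hcs] at e1 e2
  refine ⟨⟨?_, ?_⟩, ?_, ?_⟩
  · simp only; rw [e1]; nlinarith
  · simp only; rw [e1]; nlinarith
  · simp only; rw [e2]; nlinarith
  · simp only; rw [e2]; nlinarith

/-- congruent squares give a packing of open unit squares -/
lemma toPk {ι : Type} (x y θ : ι → ℝ) (s L : ℝ) (hs : 0 < s)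
    (hbox : ∀ i, CSq (x i) (y i) (θ i) s ⊆ Icc 0 L ×ˢ Icc 0 L)
    (hd : ∀ i j, i ≠ j → Disjoint (interior (CSq (x i) (y i) (θ i) s)) (interior (CSq (x j) (y j) (θ j) s))) :
    ∃ q : ι → USq, Pk (L / s) q := by
  choose r hr using fun i => (toU (x i) (y i) (θ i) s).norm
  refine ⟨r, ?_, ?_, ?_⟩
  · intro i p hp
    rw [(hr i).1] at hp
    have h1 := hbox i (interior_subset (toU_sub _ _ _ _ hs p hp))
    obtain ⟨⟨g1, g2⟩, g3, g4⟩ := h1
    simp only at g1 g2 g3 g4
    rw [K, mem_prod, mem_Icc, mem_Icc]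
    refine ⟨⟨?_, ?_⟩, ?_, ?_⟩
    · exact nonneg_of_mul_nonneg_right g1 hs
    · rw [le_div_iff₀ hs]; linarith
    · exact nonneg_of_mul_nonneg_right g3 hs
    · rw [le_div_iff₀ hs]; linarith
  · intro i j hij
    rw [(hr i).1, (hr j).1, Set.disjoint_left]
    intro p h1 h2
    exact Set.disjoint_left.1 (hd i j hij) (toU_sub _ _ _ _ hs p h1) (toU_sub _ _ _ _ hs p h2)
  · intro i; exact (hr i).2

end Pool.H10.SQ
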