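import Pool.Agent.H10.SQ.Conv

/-! Consequences of the master inequality. -/

set_option autoImplicit false

namespace Pool.H10.SQ

open MeasureTheory Set

variable {ι : Type} [Fintype ι]

lemma s_sq_le (q : USq) (hn : |q.s| ≤ q.c) : q.s ^ 2 ≤ 2 * q.t ^ 2 := by
  have hcs := q.cs
  have hs0 : 0 ≤ |q.s| := abs_nonneg _
  have hc0 : 0 ≤ q.c := hs0.trans hn
  have h1 : |q.s| ^ 2 ≤ q.c ^ 2 := pow_le_pow_left₀ hs0 hn 2
  rw [sq_abs] at h1
  have ht : q.t ^ 2 = q.c ^ 2 * q.s ^ 2 := by rw [USq.t, sq_abs]; ring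
  rw [ht]
  nlinarith [sq_nonneg q.s]

lemma strip_le (q : USq) (hn : |q.s| ≤ q.c) {D : Set ℝ} {d : ℝ} (hD : Per D d) (hd0 : 0 ≤ d) :
    (volume (q.set ∩ (D ×ˢ univ))).toReal ≤ d * (1 + q.s ^ 2) := by
  by_cases hs : q.s = 0
  · have hc : q.c = 1 := by
      have h1 := q.cs
      have h2 : 0 ≤ q.c := (abs_nonneg _).trans hn
      rw [hs] at h1
      nlinarith
    have hset : q.set = Ioo (q.a - 1/2) (q.a - 1/2 + 1) ×ˢ Ioo (q.b - 1/2) (q.b - 1/2 + 1) := by
      ext p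
      rw [q.mem, hs, hc, mem_prod, mem_Ioo, mem_Ioo]
      constructor
      · rintro ⟨⟨h1, h2⟩, h3, h4⟩
        refine ⟨⟨?_, ?_⟩, ?_, ?_⟩ <;> linarith
      · rintro ⟨⟨h1, h2⟩, h3, h4⟩
        refine ⟨⟨?_, ?_⟩, ?_, ?_⟩ <;> linarith
    have e1 : volume (q.set ∩ (D ×ˢ univ)) = ENNReal.ofReal d := by
      rw [hset, prod_inter_prod, inter_univ, inter_comm, Measure.volume_eq_prod, Measure.prod_prod, vol_ioo_ioc,
        hD.ioc, Real.volume_Ioo]
      simp
    rw [e1, ENNReal.toReal_ofReal hd0, hs]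
    nlinarith
  · have hs0 : 0 < |q.s| := abs_pos.2 hs
    have hc : 0 < q.c := by linarith
    have hcs : q.c ^ 2 + |q.s| ^ 2 = 1 := by rw [sq_abs]; exact q.cs
    have hc1 : q.c ≤ 1 := by nlinarith
    rw [← sq_abs q.s]
    set s := |q.s| with hsd
    have hc7 : 7/10 ≤ q.c := by nlinarith
    set σ := q.c + s - 1 with hσ
    have hσ0 : 0 ≤ σ := by rw [hσ]; nlinarith
    have hσ1 : σ ≤ 1 := by rw [hσ]; linarith
    have i1 : 1 / q.c ≤ 1 + s ^ 2 := by
      rw [div_le_iff₀ hc]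
      have : (1 + s ^ 2) * q.c = q.c * (2 - q.c ^ 2) := by
        have : s ^ 2 = 1 - q.c ^ 2 := by linarith
        rw [this]; ring
      nlinarith
    have i2 : 0 ≤ 1 / q.c - σ / (q.c * s) := by
      have e : 1 / q.c - σ / (q.c * s) = (1 - q.c) / (q.c * s) := by rw [hσ]; field_simp; ring
      rw [e]; exact div_nonneg (by linarith) (by positivity)
    have h1 := X_le q hc hs (q.a - (q.c + s) / 2) σ rfl hσ hσ0 hσ1 hD.meas hD.per
    have h2 : volume (q.set ∩ (D ×ˢ univ)) ≤ ENNReal.ofReal (1 / q.c) * ENNReal.ofReal d := by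
      refine h1.trans ?_
      rw [← hsd, ← hD.ioc (q.a - (q.c + s) / 2)]
      have e3 : D ∩ Ioc (q.a - (q.c + s) / 2) (q.a - (q.c + s) / 2 + 1) =
          (D ∩ Ioc (q.a - (q.c + s) / 2) (q.a - (q.c + s) / 2 + σ)) ∪
          (D ∩ Ioc (q.a - (q.c + s) / 2 + σ) (q.a - (q.c + s) / 2 + 1)) := by
        rw [← inter_union_distrib_left, Ioc_union_Ioc_eq_Ioc (by linarith) (by linarith)]
      rw [e3, measure_union _ (hD.meas.inter measurableSet_Ioc), mul_add]
      · refine add_le_add (mul_le_mul_left ?_ _) le_rfl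
        exact ENNReal.ofReal_le_ofReal (by linarith)
      · rw [Set.disjoint_left]
        rintro x ⟨-, g1⟩ ⟨-, g2⟩
        linarith [g1.2, g2.1]
    rw [← ENNReal.ofReal_mul (by positivity)] at h2
    refine (ENNReal.toReal_le_of_le_ofReal (by positivity) h2).trans ?_
    rw [mul_comm]
    exact mul_le_mul_of_nonneg_left i1 hd0

/-- one-dimensional averaging -/
lemma one_dim {k : ℕ} {d : ℝ} {q : ι → USq} (h : Pk ((k : ℝ) + d) q) (hd0 : 0 ≤ d) (hd1 : d ≤ 1) :
    d * (((k : ℝ) + 1) * (k + d) - Fintype.card ι - (2 * BT) * (((k : ℝ) + d) ^ 2 - Fintype.card ι) ^ 2) ≤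
      ((k : ℝ) + d) ^ 2 - Fintype.card ι := by
  have hD := Dset_per d hd1
  set D := Dset d with hDd
  set X := (k : ℝ) + d with hX
  have hX0 : 0 ≤ X := by positivity
  set S : Set (ℝ × ℝ) := D ×ˢ univ with hS
  have hSm : MeasurableSet S := hD.meas.prod MeasurableSet.univ
  have hfinI : volume (Icc 0 X) ≠ ⊤ := by rw [Real.volume_Icc]; exact ENNReal.ofReal_ne_top
  have h1 : ((k : ℝ) + 1) * d ≤ (volume (Icc 0 X ∩ D)).toReal := by
    have h2 := measure_inter_add_sdiff (μ := volume) (Icc 0 X) hD.meas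
    have f1 : volume (Icc 0 X ∩ D) ≠ ⊤ := ne_top_of_le_ne_top hfinI (measure_mono inter_subset_left)
    have f2 : volume (Icc 0 X \ D) ≠ ⊤ := ne_top_of_le_ne_top hfinI (measure_mono sdiff_subset)
    have h3 := congrArg ENNReal.toReal h2
    rw [ENNReal.toReal_add f1 f2, Real.volume_Icc, sub_zero, ENNReal.toReal_ofReal hX0] at h3
    have h4 := ENNReal.toReal_le_of_le_ofReal (mul_nonneg (Nat.cast_nonneg k) (by linarith)) (vol_compl k d hd0 hd1)
    have h5 : (volume (Icc 0 X \ D)).toReal ≤ k * (1 - d) := h4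
    rw [hX] at h3
    linarith
  have h2 : volume (K X ∩ S) = volume (Icc 0 X ∩ D) * ENNReal.ofReal X := by
    rw [K, hS, prod_inter_prod, inter_univ, Measure.volume_eq_prod, Measure.prod_prod, Real.volume_Icc, sub_zero]
  have h3 : (volume (K X ∩ S)).toReal = (volume (Icc 0 X ∩ D)).toReal * X := by
    rw [h2, ENNReal.toReal_mul, ENNReal.toReal_ofReal hX0]
  have h4 : volume (K X ∩ S) ≤ volume (U X q) + ∑ i, volume ((q i).set ∩ S) := by
    have hsub : K X ∩ S ⊆ U X q ∪ ⋃ i, ((q i).set ∩ S) := by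
      rintro p ⟨g1, g2⟩
      by_cases c : p ∈ ⋃ i, (q i).set
      · right
        rw [mem_iUnion] at c ⊢
        obtain ⟨i, hi⟩ := c
        exact ⟨i, hi, g2⟩
      · left; exact ⟨g1, c⟩
    refine (measure_mono hsub).trans ((measure_union_le _ _).trans ?_)
    refine add_le_add le_rfl ?_
    refine (measure_iUnion_le _).trans ?_
    rw [tsum_fintype]
  have hUK : volume (U X q) ≠ ⊤ := by
    have := vol_U_ne X q univ; rwa [inter_univ] at this
  have h5 : (volume (K X ∩ S)).toReal ≤ (X ^ 2 - Fintype.card ι) + ∑ i, (volume ((q i).set ∩ S)).toReal := by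
    have := ENNReal.toReal_mono (ENNReal.add_ne_top.2 ⟨hUK, ENNReal.sum_ne_top.2 fun i _ => fin_set _ _⟩) h4
    rw [ENNReal.toReal_add hUK (ENNReal.sum_ne_top.2 fun i _ => fin_set _ _), vol_U h hX0,
      ENNReal.toReal_sum (fun i _ => fin_set _ _)] at this
    exact this
  have h6 : ∑ i, (volume ((q i).set ∩ S)).toReal ≤ d * (Fintype.card ι + (2 * BT) * (X ^ 2 - Fintype.card ι) ^ 2) := by
    have g1 : ∀ i, (volume ((q i).set ∩ S)).toReal ≤ d + 2 * d * (q i).t ^ 2 := by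
      intro i
      have := strip_le (q i) (h.nrm i) hD hd0
      have h7 := mul_le_mul_of_nonneg_left (s_sq_le (q i) (h.nrm i)) hd0
      linarith
    refine (Finset.sum_le_sum fun i _ => g1 i).trans ?_
    rw [Finset.sum_add_distrib, Finset.sum_const, ← Finset.mul_sum, nsmul_eq_mul]
    have h8 := mul_le_mul_of_nonneg_left (sum_tilt h hX0) (show 0 ≤ 2 * d by linarith)
    have e : 2 * d * (9600000000 ^ 2 * 57 * (X ^ 2 - Fintype.card ι) ^ 2) = d * ((2 * BT) * (X ^ 2 - Fintype.card ι) ^ 2) := by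
      unfold BT; ring
    rw [e] at h8
    have e2 : (Finset.univ : Finset ι).card = Fintype.card ι := rfl
    rw [e2]
    linarith
  have h7 : ((k : ℝ) + 1) * d * X ≤ (volume (Icc 0 X ∩ D)).toReal * X := mul_le_mul_of_nonneg_right h1 hX0
  rw [← h3] at h7
  nlinarith

end Pool.H10.SQ
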