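import Pool.Agent.H10.SQ.Final

/-! Congruent squares: the conjectured bound and the waste bounds. -/

set_option autoImplicit false

namespace Pool.H10.SQ

open MeasureTheory Set

lemma W_nonneg {ι : Type} [Fintype ι] {X : ℝ} {q : ι → USq} (h : Pk X q) (hX : 0 ≤ X) :
    0 ≤ X ^ 2 - Fintype.card ι := by
  rw [← vol_U h hX]; exact ENNReal.toReal_nonneg

lemma BT_one : 1 ≤ BT := by unfold BT; norm_num

lemma CM_eq : CM = 10 * BT := rfl

lemma CM_ten : 10 ≤ CM := by rw [CM_eq]; linarith [BT_one]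

/-- consequence of the one-dimensional averaging for `1/2 ≤ d` -/
lemma half_le {ι : Type} [Fintype ι] {k : ℕ} {d : ℝ} {q : ι → USq} (h : Pk ((k : ℝ) + d) q) (hd0 : 1 / 2 ≤ d)
    (hd1 : d ≤ 1) (n : ℝ) (hn : (Fintype.card ι : ℝ) = n) :
    ((k : ℝ) + 1) ^ 2 - n ≤ 4 * (((k : ℝ) + d) ^ 2 - n) + 6 * BT * (((k : ℝ) + d) ^ 2 - n) ^ 2 := by
  have hk0 : (0 : ℝ) ≤ k := Nat.cast_nonneg k
  have hW := W_nonneg h (by linarith)
  have h1 := one_dim h (by linarith) hd1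
  rw [hn] at hW h1
  set X := (k : ℝ) + d with hX
  set W := X ^ 2 - n with hWd
  have hBT := BT_pos
  have hdp : 0 < d := by linarith
  have e1 : ((k : ℝ) + 1) * X - n = (1 - d) * X + W := by rw [hWd, hX]; ring
  rw [e1] at h1
  -- d (1-d) X ≤ (1-d) W + d 2 BT W^2
  have h2 : d * ((1 - d) * X) ≤ d * (W + 2 * BT * W ^ 2) := by
    have : (1 - d) * W ≤ d * W := mul_le_mul_of_nonneg_right (by linarith) hW
    nlinarith
  have h3 : (1 - d) * X ≤ W + 2 * BT * W ^ 2 := le_of_mul_le_mul_left h2 hdp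
  have h4 : ((k : ℝ) + 1) ^ 2 - n = (1 - d) * (k + 1 + X) + W := by rw [hWd, hX]; ring
  have h5 : (1 - d) * (k + 1 + X) ≤ (1 - d) * (3 * X) := by
    apply mul_le_mul_of_nonneg_left _ (by linarith)
    rw [hX]; linarith
  rw [h4]
  nlinarith

/-- consequence of the master inequality for `d ≤ 1/2` -/
lemma half_ge {ι : Type} [Fintype ι] {k : ℕ} {d : ℝ} {q : ι → USq} (h : Pk ((k : ℝ) + d) q) (hd0 : 0 ≤ d)
    (hd1 : d ≤ 1 / 2) (n : ℝ) (hn : (Fintype.card ι : ℝ) = n) :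
    n - k ^ 2 ≤ 4 * CM * d * (((k : ℝ) + d) ^ 2 - n) ^ 2 := by
  have h1 := master h hd0 (by linarith)
  rw [hn] at h1
  have hCM := CM_pos
  have hR : 0 ≤ CM * d * (((k : ℝ) + d) ^ 2 - n) ^ 2 := by positivity
  rcases le_total (n - k ^ 2) 0 with h2 | h2
  · nlinarith
  · have h3 : 1 / 4 ≤ (1 - d) ^ 2 := by nlinarith
    have h4 : (n - k ^ 2) * (1 / 4) ≤ (n - k ^ 2) * (1 - d) ^ 2 := mul_le_mul_of_nonneg_left h3 h2
    linarith

/-- the waste of packings by `k² + m` unit squares -/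
theorem waste_w {ι : Type} [Fintype ι] (k m : ℕ) (hm : 1 ≤ m) (hmk : m ≤ 2 * k) (X : ℝ) (hX0 : 0 ≤ X) (q : ι → USq)
    (h : Pk X q) (hcard : (Fintype.card ι : ℝ) = (k : ℝ) ^ 2 + m) (w : ℝ) (hw : 0 ≤ w)
    (hw3 : w ^ 3 ≤ k * m) (hw2 : w ^ 2 ≤ 2 * k + 1 - m) :
    w ≤ 16 * CM * (X ^ 2 - (k ^ 2 + m)) := by
  have hCM := CM_pos
  have hCM10 := CM_ten
  have hBT1 := BT_one
  have hBTCM : 10 * BT = CM := rfl
  have hm1 : (1 : ℝ) ≤ m := by exact_mod_cast hm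
  have hmk' : (m : ℝ) ≤ 2 * k := by exact_mod_cast hmk
  have hW := W_nonneg h hX0
  rw [hcard] at hW
  set W := X ^ 2 - ((k : ℝ) ^ 2 + m) with hWd
  set g : ℝ := 2 * k + 1 - m with hg
  have hg1 : 1 ≤ g := by rw [hg]; linarith
  have hk0 : (0 : ℝ) ≤ k := Nat.cast_nonneg k
  have hkX : (k : ℝ) ≤ X := by
    apply le_of_sq_le_sq _ hX0
    linarith
  -- common argument
  have fin1 : ∀ z : ℝ, 0 ≤ z → w ^ 2 ≤ z ^ 2 → w ≤ z := fun z hz hh => le_of_sq_le_sq hh hz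
  by_cases hcase : (k : ℝ) + 1 ≤ X
  · have h1 : ((k : ℝ) + 1) ^ 2 ≤ X ^ 2 := pow_le_pow_left₀ (by linarith) hcase 2
    have h2 : g ≤ W := by rw [hWd, hg]; linarith
    have h3 : w ≤ g := fin1 g (by linarith) (by nlinarith)
    have h4 : W ≤ 16 * CM * W := by nlinarith
    linarith
  push Not at hcase
  obtain ⟨d, hd⟩ : ∃ d, d = X - k := ⟨_, rfl⟩
  have hXd : X = k + d := by rw [hd]; ring
  have hd0 : 0 ≤ d := by rw [hd]; linarith
  have hd1 : d ≤ 1 := by rw [hd]; linarith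
  rw [hXd] at h
  by_cases hd2 : 1 / 2 ≤ d
  · have h1 := half_le h hd2 hd1 ((k : ℝ) ^ 2 + m) hcard
    rw [← hXd, ← hWd] at h1
    have h2 : ((k : ℝ) + 1) ^ 2 - (k ^ 2 + m) = g := by rw [hg]; ring
    rw [h2] at h1
    by_contra hcon
    push Not at hcon
    -- W < w / (16 CM)
    have h3 : 16 * CM * W < w := hcon
    rcases le_total w 1 with hw1 | hw1
    · have h4 : 16 * CM * W < 1 := lt_of_lt_of_le h3 hw1
      have h5 : 160 * BT * W < 1 := by rw [← hBTCM] at h4; linarith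
      have h6 : W < 1 / 160 := by
        have : 160 * W ≤ 160 * BT * W := by nlinarith
        linarith
      have h7 : 6 * BT * W ^ 2 ≤ 6 / 160 * W := by
        have : BT * W ≤ 1 / 160 := by linarith
        nlinarith
      linarith
    · have h5 : 160 * BT * W < w := by rw [← hBTCM] at h3; linarith
      have h6 : 160 * W ≤ 160 * BT * W := by nlinarith
      have h8 : 6 * BT * W ^ 2 ≤ 6 / 160 * (w * W) := by
        have : BT * W ≤ w / 160 := by linarith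
        nlinarith
      have h9 : w * W ≤ w ^ 2 := by nlinarith
      nlinarith
  · push Not at hd2
    have h1 := half_ge h hd0 hd2.le ((k : ℝ) ^ 2 + m) hcard
    rw [← hXd, ← hWd] at h1
    have h2 : (k : ℝ) ^ 2 + m - k ^ 2 = m := by ring
    rw [h2] at h1
    have h3 : 2 * k * d ≤ m + W := by rw [hWd, hXd]; nlinarith
    have h4 : 2 * k * (m : ℝ) ≤ 4 * CM * W ^ 2 * (m + W) := by
      have g1 : 2 * k * (m : ℝ) ≤ 2 * k * (4 * CM * d * W ^ 2) := mul_le_mul_of_nonneg_left h1 (by positivity)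
      have g2 : 4 * CM * W ^ 2 * (2 * k * d) ≤ 4 * CM * W ^ 2 * (m + W) := mul_le_mul_of_nonneg_left h3 (by positivity)
      linarith
    have h16 : 0 ≤ 16 * CM * W := by positivity
    rcases le_total W m with hWm | hWm
    · have h5 : 4 * CM * W ^ 2 * (m + W) ≤ 4 * CM * W ^ 2 * (2 * m) := mul_le_mul_of_nonneg_left (by linarith) (by positivity)
      have h6 : (m : ℝ) * (2 * k) ≤ m * (8 * CM * W ^ 2) := by linarith
      have h7 : 2 * (k : ℝ) ≤ 8 * CM * W ^ 2 := le_of_mul_le_mul_left h6 (by linarith)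
      apply fin1 _ h16
      have h8 : 8 * CM * W ^ 2 ≤ (16 * CM * W) ^ 2 := by
        have : (16 * CM * W) ^ 2 = 256 * CM * (CM * W ^ 2) := by ring
        rw [this]
        have : 0 ≤ CM * W ^ 2 := by positivity
        nlinarith
      linarith
    · have h5 : 4 * CM * W ^ 2 * (m + W) ≤ 4 * CM * W ^ 2 * (2 * W) := mul_le_mul_of_nonneg_left (by linarith) (by positivity)
      have h6 : w ^ 3 ≤ 4 * CM * W ^ 3 := by
        have : 4 * CM * W ^ 2 * (2 * W) = 2 * (4 * CM * W ^ 3) := by ring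
        linarith
      by_contra hcon
      push Not at hcon
      have h7 : (16 * CM * W) ^ 3 < w ^ 3 := pow_lt_pow_left₀ hcon h16 (by norm_num)
      have h8 : 4 * CM * W ^ 3 ≤ (16 * CM * W) ^ 3 := by
        have : (16 * CM * W) ^ 3 = 4096 * CM ^ 2 * (CM * W ^ 3) := by ring
        rw [this]
        have h9 : 0 ≤ CM * W ^ 3 := by positivity
        have h10 : 1 ≤ CM ^ 2 := by nlinarith
        nlinarith
      linarith

theorem key : ∃ C : ℝ, ∃ k0 : ℕ, 1 ≤ k0 ∧ ∀ k : ℕ, k0 ≤ k → ∀ (r : ℕ) (x : ℝ) (q : Fin r → USq), Pk x q →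
    (k : ℝ) ≤ x → x ^ 2 - r ≤ 2 → (r : ℝ) ≤ k ^ 2 + 2 * k - C → r ≤ k ^ 2 := by
  have hCM := CM_pos
  have hCM10 := CM_ten
  obtain ⟨k1, hk1⟩ := exists_nat_gt (24 * CM)
  refine ⟨8 + 24 * BT, max k1 1, le_max_right _ _, ?_⟩
  intro k hk r x q h hkx hW hr
  have hk1' : (k1 : ℝ) ≤ k := by exact_mod_cast (le_max_left _ _).trans hk
  have hk1R : (1 : ℝ) ≤ k := by exact_mod_cast (le_max_right _ _).trans hk
  have hx0 : 0 ≤ x := by linarith
  have hBT1 := BT_one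
  have hW0 : 0 ≤ x ^ 2 - r := by
    have := W_nonneg h hx0
    rwa [Fintype.card_fin] at this
  have hxk : x < k + 1 := by
    by_contra hcon
    push Not at hcon
    nlinarith
  obtain ⟨d, hd⟩ : ∃ d, d = x - k := ⟨_, rfl⟩
  have hxd : x = k + d := by rw [hd]; ring
  have hd0 : 0 ≤ d := by linarith
  have hd1 : d ≤ 1 := by linarith
  have hW2 : (x ^ 2 - r) ^ 2 ≤ 4 := by nlinarith
  rw [hxd] at h
  by_cases hd2 : 1/2 ≤ d
  · exfalso
    have h1 := half_le h hd2 hd1 r (by rw [Fintype.card_fin])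
    rw [← hxd] at h1
    have h2 : 6 * BT * (x ^ 2 - r) ^ 2 ≤ 6 * BT * 4 := mul_le_mul_of_nonneg_left hW2 (by linarith)
    linarith
  · push Not at hd2
    have h1 := half_ge h hd0 hd2.le r (by rw [Fintype.card_fin])
    rw [← hxd] at h1
    have h2 : 4 * CM * d * (x ^ 2 - r) ^ 2 ≤ 4 * CM * d * 4 := mul_le_mul_of_nonneg_left hW2 (by positivity)
    by_contra hcon
    push Not at hcon
    have hr1 : (1 : ℝ) ≤ r - k ^ 2 := by
      have : (k ^ 2 + 1 : ℕ) ≤ r := hcon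
      have : ((k ^ 2 + 1 : ℕ) : ℝ) ≤ r := by exact_mod_cast this
      push_cast at this
      linarith
    have h6 : (r : ℝ) - k ^ 2 = 2 * k * d + d ^ 2 - (x ^ 2 - r) := by rw [hxd]; ring
    -- 2 k d - 2 ≤ 16 CM d, 1 ≤ 16 CM d
    have h7 : 2 * k * d - 2 ≤ 16 * CM * d := by nlinarith [sq_nonneg d]
    have h8 : 1 ≤ 16 * CM * d := by linarith
    have h9 : 24 * CM * d ≤ k * d := mul_le_mul_of_nonneg_right (by linarith) hd0
    have h10 : 0 < d := by nlinarith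
    have h11 : 24 * CM * d < k * d := mul_lt_mul_of_pos_right (by linarith) h10
    linarith

/-- `r - v² ≤ 1` for the conjectured value `v` -/
lemma v_bd (r k t : ℕ) (v : ℝ) (hk : 1 ≤ k)
    (hv : (t < k ∧ r = k ^ 2 + 2 * t + 1 ∧ v = (k : ℝ) + (t : ℝ) / (k : ℝ)) ∨
       (t ≤ k ∧ r = k ^ 2 + 2 * t ∧ v = (k : ℝ) + (t : ℝ) / ((k : ℝ) + 1))) :
    (r : ℝ) ≤ v ^ 2 + 1 ∧ (k : ℝ) ≤ v ∧ k ^ 2 ≤ r := by
  have hk0 : (0 : ℝ) < k := by exact_mod_cast hk
  have ht0 : (0 : ℝ) ≤ t := Nat.cast_nonneg t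
  rcases hv with ⟨-, hr, hv⟩ | ⟨ht, hr, hv⟩
  · refine ⟨?_, ?_, by omega⟩
    · rw [hv, hr]
      push_cast
      have : ((k : ℝ) + t / k) ^ 2 = k ^ 2 + 2 * t + (t / k) ^ 2 := by field_simp; ring
      rw [this]
      nlinarith [sq_nonneg ((t : ℝ) / k)]
    · rw [hv]; have : 0 ≤ (t : ℝ) / k := by positivity
      linarith
  · refine ⟨?_, ?_, by omega⟩
    · rw [hv, hr]
      push_cast
      set τ := (t : ℝ) / ((k : ℝ) + 1) with hτ
      have h1 : (t : ℝ) = τ * (k + 1) := by rw [hτ]; field_simp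
      have : ((k : ℝ) + τ) ^ 2 + 1 - (k ^ 2 + 2 * t) = (1 - τ) ^ 2 := by rw [h1]; ring
      nlinarith [sq_nonneg (1 - τ)]
    · rw [hv]; have : 0 ≤ (t : ℝ) / ((k : ℝ) + 1) := by positivity
      linarith

/-- Congruent squares: the conjectured bound for all large `r` except a bounded number of values below each
square number. -/
theorem congruent : ∃ C : ℝ, ∃ k0 : ℕ, ∀ (r k t : ℕ) (v : ℝ), k0 ≤ k →
    ((t < k ∧ r = k ^ 2 + 2 * t + 1 ∧ v = (k : ℝ) + (t : ℝ) / (k : ℝ)) ∨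
       (t ≤ k ∧ r = k ^ 2 + 2 * t ∧ v = (k : ℝ) + (t : ℝ) / ((k : ℝ) + 1))) →
    (r : ℝ) ≤ k ^ 2 + 2 * k - C →
    ∀ (x y θ : Fin r → ℝ) (s : ℝ), 0 < s → (∀ i, CSq (x i) (y i) (θ i) s ⊆ Icc 0 1 ×ˢ Icc 0 1) →
      (∀ i j, i ≠ j → Disjoint (interior (CSq (x i) (y i) (θ i) s)) (interior (CSq (x j) (y j) (θ j) s))) →
      r * s ≤ v := by
  obtain ⟨C, k0, hk0, hkey⟩ := key
  refine ⟨C, k0, ?_⟩
  intro r k t v hk hv hr x y θ s hs hbox hd
  have hk1 : 1 ≤ k := hk0.trans hk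
  obtain ⟨b1, b2, b3⟩ := v_bd r k t v hk1 hv
  have hkR : (1 : ℝ) ≤ k := by exact_mod_cast hk1
  have hv1 : 1 ≤ v := by linarith
  obtain ⟨q, hq⟩ := toPk x y θ s 1 hs hbox hd
  set X := 1 / s with hX
  have hX0 : 0 < X := by positivity
  have hsX : s = 1 / X := by rw [hX]; field_simp
  have hW0 : 0 ≤ X ^ 2 - r := by
    have := W_nonneg hq hX0.le
    rwa [Fintype.card_fin] at this
  have hrk : (k : ℝ) ^ 2 ≤ r := by exact_mod_cast b3
  have hkX : (k : ℝ) ≤ X := by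
    apply le_of_sq_le_sq _ hX0.le
    linarith
  by_contra hcon
  push Not at hcon
  have h1 : X * v < r := by
    rw [hsX, mul_one_div, lt_div_iff₀ hX0] at hcon
    linarith
  have h2 : X ^ 2 * v ^ 2 < r ^ 2 := by
    have : (X * v) ^ 2 < (r : ℝ) ^ 2 := pow_lt_pow_left₀ h1 (by positivity) (by norm_num)
    linarith [mul_pow X v 2]
  have hW2 : X ^ 2 - r ≤ 2 := by
    have hv2 : 1 ≤ v ^ 2 := by nlinarith
    by_contra hc
    push Not at hc
    have h3 : (r + 2) * v ^ 2 < X ^ 2 * v ^ 2 := mul_lt_mul_of_pos_right (by linarith) (by positivity)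
    nlinarith
  have h3 := hkey k hk r X q hq hkX hW2 hr
  have h4 : r = k ^ 2 := le_antisymm h3 b3
  rcases hv with ⟨-, hr', -⟩ | ⟨-, hr', hv'⟩
  · omega
  · have ht : t = 0 := by omega
    rw [ht] at hv'
    have h5 : v = k := by rw [hv']; simp
    rw [h5, h4] at h1
    push_cast at h1
    nlinarith

/-- the waste of unit squares, `d ≤ 1/2` -/
lemma waste_half {ι : Type} [Fintype ι] {k : ℕ} {d : ℝ} {q : ι → USq} (h : Pk ((k : ℝ) + d) q) (hd0 : 0 ≤ d)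
    (hd1 : d ≤ 1 / 2) (n : ℝ) (hn : (Fintype.card ι : ℝ) = n) :
    min (k * d) (Real.sqrt k) ≤ 4 * CM * (((k : ℝ) + d) ^ 2 - n) := by
  have hk0 : (0 : ℝ) ≤ k := Nat.cast_nonneg k
  have hCM := CM_pos
  have hCM10 := CM_ten
  have hW := W_nonneg h (by linarith)
  rw [hn] at hW
  have h1 := half_ge h hd0 hd1 n hn
  set W := ((k : ℝ) + d) ^ 2 - n with hWd
  have hWle : W ≤ 4 * CM * W := by nlinarith
  by_cases hc : k * d ≤ W
  · exact (min_le_left _ _).trans (hc.trans hWle)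
  · push Not at hc
    refine (min_le_right _ _).trans ?_
    have h2 : k * d ≤ n - k ^ 2 := by
      have : n - (k : ℝ) ^ 2 = 2 * k * d + d ^ 2 - W := by rw [hWd]; ring
      nlinarith [sq_nonneg d]
    have hd : 0 < d := by
      by_contra hcon
      have : d = 0 := le_antisymm (not_lt.1 hcon) hd0
      rw [this, mul_zero] at hc
      linarith
    have h3 : d * k ≤ d * (4 * CM * W ^ 2) := by linarith
    have h4 : (k : ℝ) ≤ 4 * CM * W ^ 2 := le_of_mul_le_mul_left h3 hd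
    rw [Real.sqrt_le_left (by positivity)]
    have : (4 * CM * W) ^ 2 = 4 * CM * (4 * CM * W ^ 2) := by ring
    rw [this]
    have : 0 ≤ 4 * CM * W ^ 2 := by positivity
    nlinarith

/-- few squares -/
lemma count_half {ι : Type} [Fintype ι] {k : ℕ} {d : ℝ} {q : ι → USq} (h : Pk ((k : ℝ) + d) q) (hd0 : 0 ≤ d)
    (hd1 : d ≤ 1 / 2) (n : ℝ) (hn : (Fintype.card ι : ℝ) = n) :
    n ≤ k ^ 2 + 36 * CM * k ^ 2 * d ^ 3 := by
  have hk0 : (0 : ℝ) ≤ k := Nat.cast_nonneg k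
  have hCM := CM_pos
  have hW := W_nonneg h (by linarith)
  rw [hn] at hW
  rcases Nat.eq_zero_or_pos k with hk | hk
  · -- `k = 0`
    rw [hk] at hW ⊢
    push_cast at hW ⊢
    have hn0 : n = (Fintype.card ι : ℝ) := hn.symm
    have h1 : n ≤ 1/4 := by nlinarith
    have h2 : Fintype.card ι = 0 := by
      by_contra hne
      have : (1 : ℝ) ≤ Fintype.card ι := by exact_mod_cast Nat.one_le_iff_ne_zero.2 hne
      linarith
    rw [hn0, h2]; norm_num
  have hk1 : (1 : ℝ) ≤ k := by exact_mod_cast hk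
  have h1 := half_ge h hd0 hd1 n hn
  set W := ((k : ℝ) + d) ^ 2 - n with hWd
  rcases le_total n (k ^ 2) with hc | hc
  · have : 0 ≤ 36 * CM * k ^ 2 * d ^ 3 := by positivity
    linarith
  · have h2 : W ≤ 3 * (k * d) := by
      have : d ^ 2 ≤ k * d := by nlinarith
      rw [hWd]; nlinarith
    have h3 : W ^ 2 ≤ (3 * (k * d)) ^ 2 := pow_le_pow_left₀ hW h2 2
    have h4 : 4 * CM * d * W ^ 2 ≤ 4 * CM * d * (3 * (k * d)) ^ 2 := mul_le_mul_of_nonneg_left h3 (by positivity)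
    have e : 4 * CM * d * (3 * (k * d)) ^ 2 = 36 * CM * k ^ 2 * d ^ 3 := by ring
    linarith

end Pool.H10.SQ
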