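import Pool.Agent.H10.SQ.Walk

/-! The sum of the squares of the tilts is at most a constant times the square of the waste. -/

set_option autoImplicit false

namespace Pool.H10.SQ

open MeasureTheory Set

open Classical in
lemma mult {α ι : Type} [MeasurableSpace α] (μ : Measure α) (M : Finset ι) (A : ι → Set α)
    (hA : ∀ i ∈ M, MeasurableSet (A i)) (B : Set α) (hB : MeasurableSet B) (hAB : ∀ i ∈ M, A i ⊆ B) (N : ℕ)
    (hN : ∀ x, (M.filter (fun i => x ∈ A i)).card ≤ N) : ∑ i ∈ M, μ (A i) ≤ N * μ B := by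
  have h1 : ∀ i ∈ M, μ (A i) = ∫⁻ x, (A i).indicator 1 x ∂μ := by
    intro i hi; rw [lintegral_indicator_one (hA i hi)]
  have hm : ∀ i ∈ M, AEMeasurable ((A i).indicator (1 : α → ENNReal)) μ := fun i hi =>
    (measurable_one.indicator (hA i hi)).aemeasurable
  rw [Finset.sum_congr rfl h1, ← lintegral_finsetSum' M hm]
  have h2 : (N : ENNReal) * μ B = ∫⁻ x, B.indicator (fun _ => (N : ENNReal)) x ∂μ := by
    rw [lintegral_indicator hB, lintegral_const, Measure.restrict_apply MeasurableSet.univ, univ_inter]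
  rw [h2]
  apply lintegral_mono
  intro x
  by_cases hx : x ∈ B
  · rw [indicator_of_mem hx]
    have : ∑ i ∈ M, (A i).indicator (1 : α → ENNReal) x = ((M.filter (fun i => x ∈ A i)).card : ENNReal) := by
      rw [Finset.card_filter, Nat.cast_sum]
      apply Finset.sum_congr rfl
      intro i _
      by_cases h : x ∈ A i
      · simp [h]
      · simp [h]
    simp only
    rw [this]
    exact_mod_cast hN x
  · rw [indicator_of_notMem hx]
    have : ∑ i ∈ M, (A i).indicator (1 : α → ENNReal) x = 0 := by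
      apply Finset.sum_eq_zero
      intro i hi
      rw [indicator_of_notMem (fun h => hx (hAB i hi h))]
    simp only
    rw [this]

variable {ι : Type} [Fintype ι] {X : ℝ} {q : ι → USq}

omit [Fintype ι] in
lemma card_near (h : Pk X q) (M : Finset ι) (u v r1 r2 : ℝ) (h1 : 0 ≤ r1) (h2 : 0 ≤ r2)
    (hM : ∀ i ∈ M, |(q i).a - u| ≤ r1 ∧ |(q i).b - v| ≤ r2) :
    (M.card : ℝ) ≤ (2 * r1 + 3/2) * (2 * r2 + 3/2) := by
  refine card_le_of_disj M (fun i => (q i).set) (fun i _ => (q i).meas) (fun i _ => (q i).vol)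
    (fun i _ j _ hij => h.disj i j hij) (Icc (u - r1 - 3/4) (u + r1 + 3/4) ×ˢ Icc (v - r2 - 3/4) (v + r2 + 3/4))
    ?_ _ (by positivity) ?_
  · intro i hi p hp
    have g1 := (q i).outer' p hp
    have g2 := hM i hi
    rw [abs_lt, abs_lt] at g1
    rw [abs_le, abs_le] at g2
    rw [mem_prod, mem_Icc, mem_Icc]
    refine ⟨⟨?_, ?_⟩, ?_, ?_⟩ <;> linarith [g1.1.1, g1.1.2, g1.2.1, g1.2.2, g2.1.1, g2.1.2, g2.2.1, g2.2.2]
  · rw [Measure.volume_eq_prod, Measure.prod_prod, Real.volume_Icc, Real.volume_Icc,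
      ← ENNReal.ofReal_mul (by linarith)]
    apply ENNReal.ofReal_le_ofReal
    apply le_of_eq; ring

/-- horizontal band -/
def Hb (y : ℝ) : Set (ℝ × ℝ) := {p | |p.2 - y| ≤ 3}
/-- vertical band -/
def Vb (x : ℝ) : Set (ℝ × ℝ) := {p | |p.1 - x| ≤ 3}

lemma Hb_meas (y : ℝ) : MeasurableSet (Hb y) :=
  measurableSet_le (by fun_prop) measurable_const
lemma Vb_meas (y : ℝ) : MeasurableSet (Vb y) :=
  measurableSet_le (by fun_prop) measurable_const

lemma Bx_meas (u v r : ℝ) : MeasurableSet (Bx u v r) := measurableSet_Icc.prod measurableSet_Icc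

open Classical in
lemma sum_lw (h : Pk X q) (y : ℝ) (S : Finset ι) (hS : ∀ i ∈ S, |(q i).b - y| ≤ 84/100) :
    ∑ i ∈ S, wst X q (Bx (q i).a (q i).b 2) ≤ 31 * wst X q (Hb y) := by
  have h1 : ∑ i ∈ S, volume (U X q ∩ Bx (q i).a (q i).b 2) ≤ (31 : ℕ) * volume (U X q ∩ Hb y) := by
    apply mult volume S (fun i => U X q ∩ Bx (q i).a (q i).b 2)
      (fun i _ => (U_meas X q).inter (Bx_meas _ _ _)) _ ((U_meas X q).inter (Hb_meas y))
    · intro i hi p hp
      refine ⟨hp.1, ?_⟩
      have g1 := hS i hi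
      rw [abs_le] at g1
      obtain ⟨-, ⟨g2, g3⟩⟩ := hp.2
      show |p.2 - y| ≤ 3
      rw [abs_le]; constructor <;> linarith
    · intro p
      have h2 := card_near h (S.filter (fun i => p ∈ U X q ∩ Bx (q i).a (q i).b 2)) p.1 p.2 2 2 (by norm_num) (by norm_num)
        (by
          intro i hi
          rw [Finset.mem_filter] at hi
          obtain ⟨-, -, ⟨g1, g2⟩, g3, g4⟩ := hi
          constructor
          · rw [abs_le]; constructor <;> linarith
          · rw [abs_le]; constructor <;> linarith)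
      have h3 : ((S.filter (fun i => p ∈ U X q ∩ Bx (q i).a (q i).b 2)).card : ℝ) < 31 := by
        refine lt_of_le_of_lt h2 ?_; norm_num
      have h4 : (S.filter (fun i => p ∈ U X q ∩ Bx (q i).a (q i).b 2)).card < 31 := by exact_mod_cast h3
      refine le_trans (le_of_eq ?_) (Nat.le_of_lt h4)
      congr!
  have h2 := ENNReal.toReal_mono (ENNReal.mul_ne_top (by simp) (vol_U_ne X q (Hb y))) h1
  rw [ENNReal.toReal_mul, ENNReal.toReal_natCast, ENNReal.toReal_sum (fun i _ => vol_U_ne X q _)] at h2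
  push_cast at h2
  exact h2

open Classical in
theorem band_tilt (h : Pk X q) (s : ι) : (q s).t ≤ 9600000000 * wst X q (Hb (q s).b) := by
  set V := wst X q (Hb (q s).b) with hV
  have hV0 : 0 ≤ V := wst_nonneg _ _ _
  set n : ℝ := (Fintype.card ι : ℝ) with hn
  have hn0 : 0 ≤ n := Nat.cast_nonneg _
  by_cases hc : 19200000 * V < 1/1000
  · suffices (q s).t ≤ 19200000 * V by linarith
    set S : Finset ι := Finset.univ.filter (fun i => |(q i).b - (q s).b| ≤ 84/100) with hSd
    have hS : ∀ i, i ∈ S ↔ |(q i).b - (q s).b| ≤ 84/100 := by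
      intro i; rw [hSd, Finset.mem_filter]; simp
    have hsum := sum_lw h (q s).b S (fun i hi => (hS i).1 hi)
    have hw : wst X q (Icc 0 X ×ˢ Icc ((q s).b - 2) ((q s).b + 2)) ≤ V := by
      apply wst_mono
      intro p hp
      obtain ⟨-, h1, h2⟩ := hp
      show |p.2 - _| ≤ 3
      rw [abs_le]; constructor <;> linarith
    have key : ∀ δ, 0 < δ → 600000 * (32 * V + (n + 1) * δ) ≤ 1/1000 →
        (q s).t ≤ 600000 * (32 * V + (n + 1) * δ) := by
      intro δ hδ hsm
      have hsumL : ∀ L : Finset ι, L ⊆ S → ∑ i ∈ L, lw X q δ i ≤ 31 * V + n * δ := by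
        intro L hL
        have e : ∑ i ∈ L, lw X q δ i = ∑ i ∈ L, wst X q (Bx (q i).a (q i).b 2) + L.card * δ := by
          simp only [lw]
          rw [Finset.sum_add_distrib, Finset.sum_const, nsmul_eq_mul]
        rw [e]
        have h1 : ∑ i ∈ L, wst X q (Bx (q i).a (q i).b 2) ≤ ∑ i ∈ S, wst X q (Bx (q i).a (q i).b 2) :=
          Finset.sum_le_sum_of_subset_of_nonneg hL (fun i _ _ => wst_nonneg _ _ _)
        have h2 : (L.card : ℝ) ≤ n := by
          rw [hn]; exact_mod_cast Finset.card_le_univ L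
        have := mul_le_mul_of_nonneg_right h2 hδ.le
        linarith
      obtain ⟨L', hL', ht⟩ := walk h s δ hδ S hS (V + δ) (by linarith) (by
        have := hsumL S subset_rfl
        linarith)
      have := hsumL L' hL'
      linarith
    -- let δ tend to 0
    apply le_of_forall_pos_le_add
    intro e he
    set δ := min (e / (600000 * (n + 1))) ((1/1000 - 19200000 * V) / (600000 * (n + 1))) with hδd
    have hpos : 0 < 600000 * (n + 1) := by positivity
    have hδ : 0 < δ := lt_min (by positivity) (div_pos (by linarith) hpos)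
    have h1 : δ * (600000 * (n + 1)) ≤ e := by
      rw [← le_div_iff₀ hpos]; exact min_le_left _ _
    have h2 : δ * (600000 * (n + 1)) ≤ 1/1000 - 19200000 * V := by
      rw [← le_div_iff₀ hpos]; exact min_le_right _ _
    have := key δ hδ (by linarith)
    linarith
  · push Not at hc
    have := (q s).t_le
    linarith

/-- the reflected square -/
def USq.sw (q : USq) : USq := ⟨q.b, q.a, q.c, -q.s, by have := q.cs; nlinarith⟩

lemma USq.set_sw (q : USq) : q.sw.set = Prod.swap ⁻¹' q.set := by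
  ext p
  rw [mem_preimage, USq.mem, USq.mem]
  simp only [USq.sw, Prod.fst_swap, Prod.snd_swap]
  constructor
  · rintro ⟨⟨h1, h2⟩, h3, h4⟩
    exact ⟨⟨by linarith, by linarith⟩, by linarith, by linarith⟩
  · rintro ⟨⟨h1, h2⟩, h3, h4⟩
    exact ⟨⟨by linarith, by linarith⟩, by linarith, by linarith⟩

lemma USq.t_sw (q : USq) : q.sw.t = q.t := by
  simp only [USq.t, USq.sw]
  rw [mul_neg, abs_neg]

omit [Fintype ι] in
lemma Pk.sw (h : Pk X q) : Pk X (fun i => (q i).sw) where
  box := by
    intro i p hp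
    rw [USq.set_sw, mem_preimage] at hp
    have := h.box i hp
    rw [K, mem_prod] at this ⊢
    exact ⟨this.2, this.1⟩
  disj := by
    intro i j hij
    rw [Set.disjoint_left]
    intro p h1 h2
    rw [USq.set_sw, mem_preimage] at h1 h2
    exact Set.disjoint_left.1 (h.disj i j hij) h1 h2
  nrm := by
    intro i
    simp only [USq.sw]
    rw [abs_neg]
    exact h.nrm i

omit [Fintype ι] in
lemma U_sw (X : ℝ) (q : ι → USq) : U X (fun i => (q i).sw) = Prod.swap ⁻¹' U X q := by
  ext p
  simp only [U, mem_sdiff, mem_preimage, mem_iUnion, USq.set_sw, K, mem_prod, Prod.fst_swap, Prod.snd_swap]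
  tauto

lemma wst_sw (X : ℝ) (q : ι → USq) (B : Set (ℝ × ℝ)) (hB : MeasurableSet B) :
    wst X (fun i => (q i).sw) (Prod.swap ⁻¹' B) = wst X q B := by
  unfold wst
  rw [U_sw, ← preimage_inter]
  congr 1
  exact (Measure.measurePreserving_swap (μ := (volume : Measure ℝ)) (ν := (volume : Measure ℝ))).measure_preimage
    ((U_meas X q).inter hB).nullMeasurableSet

theorem band_tilt' (h : Pk X q) (s : ι) : (q s).t ≤ 9600000000 * wst X q (Vb (q s).a) := by
  have h1 := band_tilt h.sw s
  rw [← wst_sw X q _ (Vb_meas _)]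
  simp only [USq.t_sw] at h1
  exact h1

/-- total waste -/
lemma vol_U (h : Pk X q) (hX : 0 ≤ X) : (volume (U X q)).toReal = X ^ 2 - Fintype.card ι := by
  have h1 : volume (⋃ i, (q i).set) = (Fintype.card ι : ENNReal) := by
    rw [measure_iUnion (fun i j hij => h.disj i j hij) (fun i => (q i).meas)]
    rw [tsum_fintype]
    simp [USq.vol]
  have h2 : (⋃ i, (q i).set) ⊆ K X := iUnion_subset h.box
  rw [U, measure_sdiff h2 (MeasurableSet.iUnion fun i => (q i).meas).nullMeasurableSet (by rw [h1]; simp), h1, vol_K X hX]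
  rw [ENNReal.toReal_sub_of_le _ (by simp)]
  · rw [ENNReal.toReal_ofReal (by positivity), ENNReal.toReal_natCast]
  · rw [← h1, ← vol_K X hX]; exact measure_mono h2

open Classical in
theorem sum_tilt (h : Pk X q) (hX : 0 ≤ X) :
    ∑ i, (q i).t ^ 2 ≤ 9600000000 ^ 2 * 57 * (X ^ 2 - Fintype.card ι) ^ 2 := by
  have h1 : ∀ i, (q i).t ^ 2 ≤ 9600000000 ^ 2 * (wst X q (Hb (q i).b) * wst X q (Vb (q i).a)) := by
    intro i
    have g1 := band_tilt h i
    have g2 := band_tilt' h i
    have g3 := (q i).t_nonneg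
    have := mul_le_mul g1 g2 g3 (by have := wst_nonneg X q (Hb (q i).b); positivity)
    calc (q i).t ^ 2 = (q i).t * (q i).t := by ring
      _ ≤ _ := this
      _ = _ := by ring
  have hUK : volume (U X q) ≠ ⊤ := by
    have := vol_U_ne X q univ; rwa [inter_univ] at this
  have h2 : ∑ i, ((volume : Measure (ℝ × ℝ)).prod (volume : Measure (ℝ × ℝ)))
      ((U X q ∩ Hb (q i).b) ×ˢ (U X q ∩ Vb (q i).a)) ≤ (57 : ℕ) *
      ((volume : Measure (ℝ × ℝ)).prod (volume : Measure (ℝ × ℝ))) (U X q ×ˢ U X q) := by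
    apply mult _ Finset.univ (fun i => (U X q ∩ Hb (q i).b) ×ˢ (U X q ∩ Vb (q i).a))
    · intro i _
      exact ((U_meas X q).inter (Hb_meas _)).prod ((U_meas X q).inter (Vb_meas _))
    · exact (U_meas X q).prod (U_meas X q)
    · intro i _
      exact prod_mono inter_subset_left inter_subset_left
    · intro p
      have h2 := card_near h (Finset.univ.filter
        (fun i => p ∈ (U X q ∩ Hb (q i).b) ×ˢ (U X q ∩ Vb (q i).a))) p.2.1 p.1.2 3 3 (by norm_num) (by norm_num)
        (by
          intro i hi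
          rw [Finset.mem_filter] at hi
          obtain ⟨-, ⟨-, g1⟩, -, g2⟩ := hi
          constructor
          · rw [abs_sub_comm]; exact g2
          · rw [abs_sub_comm]; exact g1)
      have h3 : ((Finset.univ.filter (fun i => p ∈ (U X q ∩ Hb (q i).b) ×ˢ (U X q ∩ Vb (q i).a))).card : ℝ) < 57 := by
        refine lt_of_le_of_lt h2 ?_; norm_num
      have h4 : (Finset.univ.filter (fun i => p ∈ (U X q ∩ Hb (q i).b) ×ˢ (U X q ∩ Vb (q i).a))).card < 57 := by
        exact_mod_cast h3
      refine le_trans (le_of_eq ?_) (Nat.le_of_lt h4)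
      congr!
  have h3 : ∑ i, wst X q (Hb (q i).b) * wst X q (Vb (q i).a) ≤ 57 * (X ^ 2 - Fintype.card ι) ^ 2 := by
    simp only [Measure.prod_prod] at h2
    have h4 := ENNReal.toReal_mono (ENNReal.mul_ne_top (by simp) (ENNReal.mul_ne_top hUK hUK)) h2
    rw [ENNReal.toReal_sum (fun i _ => ENNReal.mul_ne_top (vol_U_ne X q _) (vol_U_ne X q _))] at h4
    simp only [ENNReal.toReal_mul, ENNReal.toReal_natCast, vol_U h hX] at h4
    push_cast at h4
    calc _ ≤ _ := h4
      _ = _ := by ring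
  calc ∑ i, (q i).t ^ 2 ≤ ∑ i, 9600000000 ^ 2 * (wst X q (Hb (q i).b) * wst X q (Vb (q i).a)) :=
        Finset.sum_le_sum fun i _ => h1 i
    _ = 9600000000 ^ 2 * ∑ i, (wst X q (Hb (q i).b) * wst X q (Vb (q i).a)) := by rw [Finset.mul_sum]
    _ ≤ 9600000000 ^ 2 * (57 * (X ^ 2 - Fintype.card ι) ^ 2) := by
        apply mul_le_mul_of_nonneg_left h3 (by norm_num)
    _ = _ := by ring

end Pool.H10.SQ
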