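import Pool.Agent.H10.SQ.Chord
import Pool.Agent.H10.SQ.Tilt

/-! The area of a unit square inside the strips. -/

set_option autoImplicit false

namespace Pool.H10.SQ

open MeasureTheory Set

lemma f_meas (q : USq) : Measurable (fun x => volume (vc q x)) :=
  measurable_measure_prodMk_left q.meas

lemma strip_eq (q : USq) {D : Set ℝ} (hD : MeasurableSet D) :
    volume (q.set ∩ (D ×ˢ univ)) = ∫⁻ x in D, volume (vc q x) := by
  rw [Measure.volume_eq_prod, Measure.prod_apply (q.meas.inter (hD.prod MeasurableSet.univ)),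
    ← lintegral_indicator hD]
  apply lintegral_congr
  intro x
  by_cases hx : x ∈ D
  · rw [indicator_of_mem hx]
    congr 1
    ext y
    simp [vc, hx]
  · rw [indicator_of_notMem hx]
    have : Prod.mk x ⁻¹' (q.set ∩ D ×ˢ univ) = ∅ := by
      ext y
      simp [hx]
    rw [this, measure_empty]

/-- upper bound for the area over a periodic set -/
lemma X_le (q : USq) (hc : 0 < q.c) (hs : q.s ≠ 0) (α σ : ℝ) (hα : α = q.a - (q.c + |q.s|) / 2)
    (hσ : σ = q.c + |q.s| - 1) (hσ0 : 0 ≤ σ) (hσ1 : σ ≤ 1) {D : Set ℝ} (hD : MeasurableSet D)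
    (hper : ∀ x, x + 1 ∈ D ↔ x ∈ D) :
    volume (q.set ∩ (D ×ˢ univ)) ≤ ENNReal.ofReal (σ / (q.c * |q.s|)) * volume (D ∩ Ioc α (α + σ)) +
      ENNReal.ofReal (1 / q.c) * volume (D ∩ Ioc (α + σ) (α + 1)) := by
  have hs0 : 0 < |q.s| := abs_pos.2 hs
  rw [strip_eq q hD]
  set f : ℝ → ENNReal := fun x => volume (vc q x) with hf
  have hfm : Measurable f := f_meas q
  set A := D ∩ Ioc α (α + σ) with hA
  set B := D ∩ Ioc (α + σ) (α + 1) with hB
  set C := D ∩ Ioc (α + 1) (α + 1 + σ) with hC
  have hAm : MeasurableSet A := hD.inter measurableSet_Ioc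
  have hBm : MeasurableSet B := hD.inter measurableSet_Ioc
  have hCm : MeasurableSet C := hD.inter measurableSet_Ioc
  have h1 : ∫⁻ x in D, f x ≤ (∫⁻ x in A, f x) + (∫⁻ x in B, f x) + ∫⁻ x in C, f x := by
    rw [← lintegral_indicator hD, ← lintegral_indicator hAm, ← lintegral_indicator hBm, ← lintegral_indicator hCm,
      ← lintegral_add_left (hfm.indicator hAm), ← lintegral_add_left (f := fun x => A.indicator f x + B.indicator f x)
        ((hfm.indicator hAm).add (hfm.indicator hBm))]
    apply lintegral_mono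
    intro x
    simp only
    by_cases hx : x ∈ D
    · rw [indicator_of_mem hx]
      by_cases c1 : x ≤ α
      · have : f x = 0 := by
          apply vc_empty q hc hs x
          left; linarith
        rw [this]; exact zero_le
      push Not at c1
      by_cases c2 : x ≤ α + σ
      · have : x ∈ A := ⟨hx, c1, c2⟩
        rw [indicator_of_mem this]
        exact le_add_right (le_add_right le_rfl)
      push Not at c2
      by_cases c3 : x ≤ α + 1
      · have : x ∈ B := ⟨hx, c2, c3⟩
        rw [indicator_of_mem this]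
        exact le_add_right (le_add_left le_rfl)
      push Not at c3
      by_cases c4 : x ≤ α + 1 + σ
      · have : x ∈ C := ⟨hx, c3, c4⟩
        rw [indicator_of_mem this]
        exact le_add_left le_rfl
      push Not at c4
      have : f x = 0 := by
        apply vc_empty q hc hs x
        right; linarith
      rw [this]; exact zero_le
    · rw [indicator_of_notMem hx]; exact zero_le
  have h2 : ∫⁻ x in C, f x = ∫⁻ x in A, f (x + 1) := by
    rw [← lintegral_indicator hCm, ← lintegral_indicator hAm, ← lintegral_add_right_eq_self _ (1 : ℝ)]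
    apply lintegral_congr
    intro x
    have hiff : x + 1 ∈ C ↔ x ∈ A := by
      simp only [hC, hA, mem_inter_iff, hper, mem_Ioc]
      constructor
      · rintro ⟨g1, g2, g3⟩; exact ⟨g1, by linarith, by linarith⟩
      · rintro ⟨g1, g2, g3⟩; exact ⟨g1, by linarith, by linarith⟩
    by_cases hx : x ∈ A
    · rw [indicator_of_mem hx, indicator_of_mem (hiff.2 hx)]
    · rw [indicator_of_notMem hx, indicator_of_notMem (fun h => hx (hiff.1 h))]
  have h3 : (∫⁻ x in A, f x) + ∫⁻ x in A, f (x + 1) ≤ ENNReal.ofReal (σ / (q.c * |q.s|)) * volume A := by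
    rw [← lintegral_add_left hfm, ← setLIntegral_const]
    apply setLIntegral_mono measurable_const
    rintro x ⟨-, g1, g2⟩
    have e1 : f x ≤ ENNReal.ofReal ((x - α) / (q.c * |q.s|)) := by
      have := vc_le_l q hc hs x
      rw [show (q.c + |q.s|) / 2 + (x - q.a) = x - α by rw [hα]; ring] at this
      exact this
    have e2 : f (x + 1) ≤ ENNReal.ofReal ((α + σ - x) / (q.c * |q.s|)) := by
      have := vc_le_r q hc hs (x + 1)
      rw [show (q.c + |q.s|) / 2 - (x + 1 - q.a) = α + σ - x by rw [hα, hσ]; ring] at this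
      exact this
    refine (add_le_add e1 e2).trans ?_
    rw [← ENNReal.ofReal_add (div_nonneg (by linarith) (by positivity)) (div_nonneg (by linarith) (by positivity)),
      ← add_div]
    apply le_of_eq; congr 2; ring
  have h4 : ∫⁻ x in B, f x ≤ ENNReal.ofReal (1 / q.c) * volume B := by
    rw [← setLIntegral_const]
    apply setLIntegral_mono measurable_const
    intro x _
    exact vc_le_c q hc hs x
  calc ∫⁻ x in D, f x ≤ (∫⁻ x in A, f x) + (∫⁻ x in B, f x) + ∫⁻ x in C, f x := h1
    _ = ((∫⁻ x in A, f x) + ∫⁻ x in A, f (x + 1)) + ∫⁻ x in B, f x := by rw [h2, add_right_comm]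
    _ ≤ _ := add_le_add h3 h4

/-- points of `D` no translate of which is in `(a - ρ, a + ρ)` -/
def Dst (D : Set ℝ) (a ρ : ℝ) : Set ℝ := D ∩ ⋂ m : ℤ, {x | x + m ∉ Ioo (a - ρ) (a + ρ)}

lemma Dst_meas {D : Set ℝ} (hD : MeasurableSet D) (a ρ : ℝ) : MeasurableSet (Dst D a ρ) := by
  apply hD.inter
  apply MeasurableSet.iInter
  intro m
  have : {x : ℝ | x + m ∉ Ioo (a - ρ) (a + ρ)} = ((fun x : ℝ => x + m) ⁻¹' Ioo (a - ρ) (a + ρ))ᶜ := rfl
  rw [this]
  exact (measurableSet_Ioo.preimage (by fun_prop)).compl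

lemma Dst_per {D : Set ℝ} (hper : ∀ x, x + 1 ∈ D ↔ x ∈ D) (a ρ : ℝ) (x : ℝ) :
    x + 1 ∈ Dst D a ρ ↔ x ∈ Dst D a ρ := by
  simp only [Dst, mem_inter_iff, mem_iInter, mem_ofPred_eq, hper]
  constructor
  · rintro ⟨h1, h2⟩
    refine ⟨h1, fun m => ?_⟩
    have := h2 (m - 1)
    push_cast at this
    rw [show x + 1 + ((m : ℝ) - 1) = x + m by ring] at this
    exact this
  · rintro ⟨h1, h2⟩
    refine ⟨h1, fun m => ?_⟩
    have := h2 (m + 1)
    push_cast at this
    rw [show x + ((m : ℝ) + 1) = x + 1 + m by ring] at this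
    exact this

/-- lower bound for the area in the small squares -/
lemma Z_ge (q : USq) (hc : 0 < q.c) (hs : q.s ≠ 0) (ρ : ℝ) (hρ : ρ = (q.c + |q.s|) / 2 - q.c * |q.s|)
    {D : Set ℝ} {d d' : ℝ} (hD : Per D d) (hD' : Per (Dst D q.a ρ) d') :
    ENNReal.ofReal d * volume (D ∩ Ioo (q.a - ρ) (q.a + ρ)) + ENNReal.ofReal d' * volume (D ∩ Ioo (q.b - ρ) (q.b + ρ))
      ≤ volume (q.set ∩ (D ×ˢ D)) := by
  set I := Ioo (q.a - ρ) (q.a + ρ) with hI
  set J := Ioo (q.b - ρ) (q.b + ρ) with hJ
  have hm : MeasurableSet (q.set ∩ (D ×ˢ D)) := q.meas.inter (hD.meas.prod hD.meas)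
  have hIm : MeasurableSet (I ×ˢ (univ : Set ℝ)) := measurableSet_Ioo.prod MeasurableSet.univ
  have h1 : ENNReal.ofReal d * volume (D ∩ I) ≤ volume ((q.set ∩ (D ×ˢ D)) ∩ (I ×ˢ univ)) := by
    rw [Measure.volume_eq_prod, Measure.prod_apply (hm.inter hIm), ← setLIntegral_const,
      ← lintegral_indicator (hD.meas.inter measurableSet_Ioo)]
    apply lintegral_mono
    intro x
    simp only
    by_cases hx : x ∈ D ∩ I
    · rw [indicator_of_mem hx]
      obtain ⟨l, r, hlr, hsub⟩ := vc_big q hc hs x (by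
        have := hx.2
        rw [hI, mem_Ioo] at this
        rw [← hρ, abs_le]; constructor <;> linarith)
      refine (hD.big l r hlr).trans (measure_mono ?_)
      rintro y ⟨g1, g2⟩
      have := hsub g2
      rw [mem_vc] at this
      exact ⟨⟨this, hx.1, g1⟩, hx.2, mem_univ _⟩
    · rw [indicator_of_notMem hx]; exact zero_le
  have h2 : ENNReal.ofReal d' * volume (D ∩ J) ≤ volume ((q.set ∩ (D ×ˢ D)) \ (I ×ˢ univ)) := by
    rw [Measure.volume_eq_prod, Measure.prod_apply_symm (hm.diff hIm), ← setLIntegral_const,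
      ← lintegral_indicator (hD.meas.inter measurableSet_Ioo)]
    apply lintegral_mono
    intro y
    simp only
    by_cases hy : y ∈ D ∩ J
    · rw [indicator_of_mem hy]
      obtain ⟨l, r, hlr, hsub⟩ := vc_big q.sw hc (neg_ne_zero.2 hs) y (by
        have := hy.2
        rw [hJ, mem_Ioo] at this
        simp only [USq.sw]
        rw [abs_neg, ← hρ, abs_le]; constructor <;> linarith)
      refine (hD'.big l r hlr).trans (measure_mono ?_)
      rintro x ⟨g1, g2⟩
      have g3 := hsub g2
      rw [mem_vc, USq.set_sw, mem_preimage] at g3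
      have g4 : x ∉ I := by
        have := g1.2
        rw [mem_iInter] at this
        have := this 0
        rw [mem_ofPred_eq] at this
        push_cast at this
        rw [add_zero] at this
        exact this
      exact ⟨⟨g3, g1.1, hy.1⟩, fun h => g4 h.1⟩
    · rw [indicator_of_notMem hy]; exact zero_le
  rw [← measure_inter_add_sdiff (q.set ∩ (D ×ˢ D)) hIm]
  exact add_le_add h1 h2

end Pool.H10.SQ
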