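import Pool.Agent.H10.SQ.Loss

/-! The loss of a square. -/

set_option autoImplicit false

namespace Pool.H10.SQ

open MeasureTheory Set

lemma fin_ioc (D : Set ℝ) (t u : ℝ) : volume (D ∩ Ioc t u) ≠ ⊤ := by
  refine ne_top_of_le_ne_top ?_ (measure_mono inter_subset_right)
  rw [Real.volume_Ioc]; exact ENNReal.ofReal_ne_top

lemma arcs {D : Set ℝ} {d : ℝ} (hD : Per D d) (hd0 : 0 ≤ d) (a w p ρ α σ : ℝ) (hρ : ρ = w / 2 - p)
    (hα : α = a - w / 2) (hσ : σ = w - 1) (h1 : 0 ≤ σ) (h2 : σ ≤ p) (h3 : 0 ≤ ρ) (h4 : σ ≤ 1) :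
    ∃ A1 A2 : ℝ, 0 ≤ A1 ∧ A1 ≤ d ∧ 0 ≤ A2 ∧ A2 ≤ d ∧ Per (Dst D a ρ) A1 ∧
      volume (D ∩ Ioo (a - ρ) (a + ρ)) = ENNReal.ofReal (d - A1) ∧
      volume (D ∩ Ioc α (α + σ)) = ENNReal.ofReal A2 ∧
      volume (D ∩ Ioc (α + σ) (α + 1)) = ENNReal.ofReal (d - A2) ∧
      A1 ≤ A2 + 2 * (p - σ) ∧ A1 ≤ 2 * p - σ := by
  have hm := Dst_meas hD.meas a ρ
  have hp := Dst_per hD.per a ρ
  set A1 := (volume (Dst D a ρ ∩ Ioc 0 1)).toReal with hA1
  set A2 := (volume (D ∩ Ioc α (α + σ))).toReal with hA2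
  have hPer : Per (Dst D a ρ) A1 := ⟨hm, hp, by rw [hA1, ENNReal.ofReal_toReal (fin_ioc _ _ _)]⟩
  have e2 : volume (D ∩ Ioc α (α + σ)) = ENNReal.ofReal A2 := by rw [hA2, ENNReal.ofReal_toReal (fin_ioc _ _ _)]
  have hA10 : 0 ≤ A1 := ENNReal.toReal_nonneg
  have hA20 : 0 ≤ A2 := ENNReal.toReal_nonneg
  have hρ2 : 2 * ρ ≤ 1 := by rw [hρ]; linarith
  -- first decomposition
  have d1 : D ∩ Ioc (a - 1/2) (a - 1/2 + 1) = (D ∩ Ioo (a - ρ) (a + ρ)) ∪ (Dst D a ρ ∩ Ioc (a - 1/2) (a - 1/2 + 1)) := by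
    ext x
    simp only [Dst, mem_union, mem_inter_iff, mem_Ioc, mem_Ioo, mem_iInter, mem_ofPred_eq]
    constructor
    · rintro ⟨g1, g2, g3⟩
      by_cases c : a - ρ < x ∧ x < a + ρ
      · left; exact ⟨g1, c⟩
      · right
        refine ⟨⟨g1, ?_⟩, g2, g3⟩
        intro m hm
        rcases lt_trichotomy m 0 with hm0 | hm0 | hm0
        · have : (m : ℝ) ≤ -1 := by exact_mod_cast (by omega : m ≤ -1)
          linarith [hm.1]
        · rw [hm0] at hm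
          push_cast at hm
          rw [add_zero] at hm
          exact c hm
        · have : (1 : ℝ) ≤ m := by exact_mod_cast (by omega : 1 ≤ m)
          linarith [hm.2]
    · rintro (⟨g1, g2, g3⟩ | ⟨⟨g1, -⟩, g2, g3⟩)
      · exact ⟨g1, by linarith, by linarith⟩
      · exact ⟨g1, g2, g3⟩
  have v1 : ENNReal.ofReal d = volume (D ∩ Ioo (a - ρ) (a + ρ)) + ENNReal.ofReal A1 := by
    rw [← hD.ioc (a - 1/2), ← hPer.ioc (a - 1/2), d1, measure_union _ (hm.inter measurableSet_Ioc)]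
    rw [Set.disjoint_left]
    rintro x ⟨-, g1⟩ ⟨⟨-, g2⟩, -⟩
    rw [mem_iInter] at g2
    have := g2 0
    rw [mem_ofPred_eq] at this
    push_cast at this
    rw [add_zero] at this
    exact this g1
  have f1 : volume (D ∩ Ioo (a - ρ) (a + ρ)) ≠ ⊤ := by rw [vol_ioo_ioc]; exact fin_ioc _ _ _
  have v1r : d = (volume (D ∩ Ioo (a - ρ) (a + ρ))).toReal + A1 := by
    have := congrArg ENNReal.toReal v1
    rw [ENNReal.toReal_add f1 ENNReal.ofReal_ne_top, ENNReal.toReal_ofReal hd0, ENNReal.toReal_ofReal hA10] at this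
    exact this
  have v1' : volume (D ∩ Ioo (a - ρ) (a + ρ)) = ENNReal.ofReal (d - A1) := by
    rw [← ENNReal.ofReal_toReal f1]; congr 1; linarith
  -- second
  have v2 : ENNReal.ofReal d = ENNReal.ofReal A2 + volume (D ∩ Ioc (α + σ) (α + 1)) := by
    rw [← hD.ioc α, ← e2, ← measure_union _ (hD.meas.inter measurableSet_Ioc), ← inter_union_distrib_left,
      Ioc_union_Ioc_eq_Ioc (by linarith) (by linarith)]
    rw [Set.disjoint_left]
    rintro x ⟨-, g1⟩ ⟨-, g2⟩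
    linarith [g1.2, g2.1]
  have v2r : d = A2 + (volume (D ∩ Ioc (α + σ) (α + 1))).toReal := by
    have := congrArg ENNReal.toReal v2
    rw [ENNReal.toReal_add ENNReal.ofReal_ne_top (fin_ioc _ _ _), ENNReal.toReal_ofReal hd0, ENNReal.toReal_ofReal hA20] at this
    exact this
  have v2' : volume (D ∩ Ioc (α + σ) (α + 1)) = ENNReal.ofReal (d - A2) := by
    rw [← ENNReal.ofReal_toReal (fin_ioc _ _ _)]; congr 1; linarith
  have t1 : 0 ≤ (volume (D ∩ Ioo (a - ρ) (a + ρ))).toReal := ENNReal.toReal_nonneg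
  have t2 : 0 ≤ (volume (D ∩ Ioc (α + σ) (α + 1))).toReal := ENNReal.toReal_nonneg
  -- third
  have hend : ∀ x, x ∈ Dst D a ρ ∩ Ioc (a + ρ - 1) (a + ρ - 1 + 1) → x ≤ a - ρ ∨ x = a + ρ := by
    rintro x ⟨⟨-, g1⟩, g2, g3⟩
    rw [mem_iInter] at g1
    have := g1 0
    rw [mem_ofPred_eq] at this
    push_cast at this
    rw [add_zero, mem_Ioo] at this
    by_contra hcon
    push Not at hcon
    exact this ⟨hcon.1, lt_of_le_of_ne (by linarith) hcon.2⟩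
  have w1 : A1 ≤ A2 + 2 * (p - σ) := by
    have hsub : Dst D a ρ ∩ Ioc (a + ρ - 1) (a + ρ - 1 + 1) ⊆
        (D ∩ Ioc α (α + σ)) ∪ (Ioc (a + ρ - 1) α ∪ (Ioc (α + σ) (a - ρ) ∪ {a + ρ})) := by
      intro x hx
      rcases hend x hx with g | g
      · by_cases c1 : x ≤ α
        · right; left; exact ⟨hx.2.1, c1⟩
        push Not at c1
        by_cases c2 : x ≤ α + σ
        · left; exact ⟨hx.1.1, c1, c2⟩
        push Not at c2
        right; right; left; exact ⟨c2, g⟩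
      · right; right; right; exact g
    have hle : ENNReal.ofReal A1 ≤ ENNReal.ofReal (A2 + ((p - σ) + ((p - σ) + 0))) := by
      rw [← hPer.ioc (a + ρ - 1), ENNReal.ofReal_add hA20 (by linarith), ENNReal.ofReal_add (by linarith) (by linarith),
        ENNReal.ofReal_add (by linarith) le_rfl]
      refine (measure_mono hsub).trans ((measure_union_le _ _).trans ?_)
      refine add_le_add e2.le ((measure_union_le _ _).trans ?_)
      refine add_le_add ?_ ((measure_union_le _ _).trans ?_)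
      · rw [Real.volume_Ioc]; apply le_of_eq; congr 1; rw [hα, hρ, hσ]; ring
      · refine add_le_add ?_ ?_
        · rw [Real.volume_Ioc]; apply le_of_eq; congr 1; rw [hα, hρ, hσ]; ring
        · rw [Real.volume_singleton]; simp
    rw [ENNReal.ofReal_le_ofReal_iff (by linarith)] at hle
    linarith
  have w2 : A1 ≤ 2 * p - σ := by
    have hsub : Dst D a ρ ∩ Ioc (a + ρ - 1) (a + ρ - 1 + 1) ⊆ Ioc (a + ρ - 1) (a - ρ) ∪ {a + ρ} := by
      intro x hx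
      rcases hend x hx with g | g
      · left; exact ⟨hx.2.1, g⟩
      · right; exact g
    have hle : ENNReal.ofReal A1 ≤ ENNReal.ofReal (2 * p - σ) := by
      rw [← hPer.ioc (a + ρ - 1)]
      refine (measure_mono hsub).trans ((measure_union_le _ _).trans ?_)
      rw [Real.volume_singleton, add_zero, Real.volume_Ioc]
      apply le_of_eq; congr 1; rw [hρ, hσ]; ring
    rw [ENNReal.ofReal_le_ofReal_iff (by linarith)] at hle
    exact hle
  exact ⟨A1, A2, hA10, by linarith, hA20, by linarith, hPer, v1', e2, v2', w1, w2⟩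

/-- the algebra of the bound -/
lemma alg_sharp (c s σ d A1 A2 B1 B2 : ℝ) (hcs : c ^ 2 + s ^ 2 = 1) (hs : 0 < s) (hsc : s ≤ c) (hσ : σ = c + s - 1)
    (hd0 : 0 ≤ d) (hA2 : 0 ≤ A2) (hB2 : 0 ≤ B2) (hA1 : 0 ≤ A1) (hB1 : 0 ≤ B1) (hA1d : A1 ≤ d) (hB1d : B1 ≤ d)
    (h1 : A1 ≤ A2 + 2 * (c * s - σ)) (h2 : A1 ≤ 2 * (c * s) - σ)
    (h3 : B1 ≤ B2 + 2 * (c * s - σ)) (h4 : B1 ≤ 2 * (c * s) - σ) :
    (σ / (c * s) * A2 + 1 / c * (d - A2)) + (σ / (c * s) * B2 + 1 / c * (d - B2)) - (d * (d - A1) + A1 * (d - B1))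
      ≤ 2 * d - d ^ 2 + 5 * d * s ^ 2 := by
  have hc : 0 < c := by linarith
  have hc1 : c ≤ 1 := by nlinarith
  have hc7 : 7/10 ≤ c := by nlinarith
  have hs1 : s ≤ 1 := by nlinarith
  have hcs2 : 2 * (c * s) = 2 * σ + σ ^ 2 := by
    rw [hσ]
    have : (c + s - 1) ^ 2 = c ^ 2 + s ^ 2 + 2 * (c * s) - 2 * (c + s) + 1 := by ring
    rw [this, hcs]; ring
  have hσ0 : 0 ≤ σ := by rw [hσ]; nlinarith
  have hσs : σ ≤ s := by rw [hσ]; linarith
  have hσ2 : σ ^ 2 ≤ s ^ 2 := pow_le_pow_left₀ hσ0 hσs 2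
  have i1 : 1 / c ≤ 1 + s ^ 2 := by
    rw [div_le_iff₀ hc]
    have : (1 + s ^ 2) * c = c * (2 - c ^ 2) := by rw [← hcs]; ring_nf; rw [← sub_eq_zero]; ring_nf; nlinarith
    nlinarith
  -- κ = 1/c - σ/(cs) ≥ σ/2 - σ^2/4
  set κ := 1 / c - σ / (c * s) with hκ
  have i2 : σ / 2 - σ ^ 2 / 4 ≤ κ := by
    have e : σ / (c * s) ≤ 1 - σ / 2 + σ ^ 2 / 4 := by
      rw [div_le_iff₀ (mul_pos hc hs)]
      have : c * s = σ + σ ^ 2 / 2 := by linarith
      rw [this]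
      nlinarith [pow_nonneg hσ0 3, pow_nonneg hσ0 4]
    have e' : 1 ≤ 1 / c := by rw [le_div_iff₀ hc]; linarith
    rw [hκ]; linarith
  have hκ0 : 0 ≤ κ := by
    have : 0 ≤ σ / 2 - σ ^ 2 / 4 := by nlinarith
    linarith
  have e0 : (σ / (c * s) * A2 + 1 / c * (d - A2)) + (σ / (c * s) * B2 + 1 / c * (d - B2))
      - (d * (d - A1) + A1 * (d - B1)) = 2 * d * (1 / c) - κ * (A2 + B2) - d ^ 2 + A1 * B1 := by rw [hκ]; ring
  rw [e0]
  have j1 : 2 * d * (1 / c) ≤ 2 * d * (1 + s ^ 2) := mul_le_mul_of_nonneg_left i1 (by linarith)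
  -- truncated values
  have step : ∀ A1 A2 : ℝ, 0 ≤ A1 → 0 ≤ A2 → A1 ≤ d → A1 ≤ A2 + 2 * (c * s - σ) → A1 ≤ 2 * (c * s) - σ →
      ∃ a, 0 ≤ a ∧ a ≤ A2 ∧ a ≤ σ ∧ a ≤ d ∧ A1 ≤ a + σ ^ 2 := by
    intro A1 A2 g1 g2 g3 g4 g5
    by_cases hcase : A1 ≤ σ ^ 2
    · exact ⟨0, le_rfl, g2, hσ0, hd0, by linarith⟩
    · push Not at hcase
      exact ⟨A1 - σ ^ 2, by linarith, by linarith, by linarith, by nlinarith [sq_nonneg σ], by linarith⟩
  obtain ⟨a, a1, a2, a3, a4, a5⟩ := step A1 A2 hA1 hA2 hA1d h1 h2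
  obtain ⟨b, b1, b2, b3, b4, b5⟩ := step B1 B2 hB1 hB2 hB1d h3 h4
  have j2 : κ * (a + b) ≤ κ * (A2 + B2) := mul_le_mul_of_nonneg_left (by linarith) hκ0
  have j3 : (σ / 2 - σ ^ 2 / 4) * (a + b) ≤ κ * (a + b) := mul_le_mul_of_nonneg_right i2 (by linarith)
  have j4 : a * b ≤ σ / 2 * (a + b) := by
    nlinarith [mul_le_mul_of_nonneg_left b3 a1, mul_le_mul_of_nonneg_left a3 b1]
  have j5 : σ ^ 2 / 4 * (a + b) ≤ σ ^ 2 / 4 * (2 * d) := mul_le_mul_of_nonneg_left (by linarith) (by positivity)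
  -- A1 B1 ≤ (a + σ²) B1 ≤ a (b + σ²) + σ² d
  have j6 : A1 * B1 ≤ a * b + 2 * d * σ ^ 2 := by
    have g1 : A1 * B1 ≤ (a + σ ^ 2) * B1 := mul_le_mul_of_nonneg_right a5 hB1
    have g2 : a * B1 ≤ a * (b + σ ^ 2) := mul_le_mul_of_nonneg_left b5 a1
    have g3 : σ ^ 2 * B1 ≤ σ ^ 2 * d := mul_le_mul_of_nonneg_left hB1d (by positivity)
    have g4 : a * σ ^ 2 ≤ d * σ ^ 2 := mul_le_mul_of_nonneg_right a4 (by positivity)
    nlinarith
  have j7 : d * σ ^ 2 ≤ d * s ^ 2 := mul_le_mul_of_nonneg_left hσ2 hd0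
  nlinarith

lemma fin_set (q : USq) (B : Set (ℝ × ℝ)) : volume (q.set ∩ B) ≠ ⊤ := by
  refine ne_top_of_le_ne_top ?_ (measure_mono inter_subset_left)
  rw [q.vol]; exact ENNReal.one_ne_top

lemma Y_eq (q : USq) {D : Set ℝ} (hD : MeasurableSet D) :
    volume (q.set ∩ (univ ×ˢ D)) = volume (q.sw.set ∩ (D ×ˢ univ)) := by
  have : q.sw.set ∩ (D ×ˢ univ) = Prod.swap ⁻¹' (q.set ∩ (univ ×ˢ D)) := by
    ext p
    rw [USq.set_sw]
    simp only [mem_inter_iff, mem_preimage, mem_prod, mem_univ, Prod.fst_swap, Prod.snd_swap, and_true, true_and]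
  rw [this]
  exact ((Measure.measurePreserving_swap (μ := (volume : Measure ℝ)) (ν := (volume : Measure ℝ))).measure_preimage
    (q.meas.inter (MeasurableSet.univ.prod hD)).nullMeasurableSet).symm

lemma union_real (q : USq) {D : Set ℝ} (hD : MeasurableSet D) :
    (volume (q.set ∩ ((D ×ˢ univ) ∪ (univ ×ˢ D)))).toReal = (volume (q.set ∩ (D ×ˢ univ))).toReal +
      (volume (q.set ∩ (univ ×ˢ D))).toReal - (volume (q.set ∩ (D ×ˢ D))).toReal := by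
  have h1 := measure_union_add_inter (μ := volume) (q.set ∩ (D ×ˢ univ)) (t := q.set ∩ (univ ×ˢ D))
    (q.meas.inter (MeasurableSet.univ.prod hD))
  have e1 : (q.set ∩ (D ×ˢ univ)) ∪ (q.set ∩ (univ ×ˢ D)) = q.set ∩ ((D ×ˢ univ) ∪ (univ ×ˢ D)) := by
    rw [inter_union_distrib_left]
  have e2 : (q.set ∩ (D ×ˢ univ)) ∩ (q.set ∩ (univ ×ˢ D)) = q.set ∩ (D ×ˢ D) := by
    ext p
    simp only [mem_inter_iff, mem_prod, mem_univ, and_true, true_and]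
    tauto
  rw [e1, e2] at h1
  have h2 := congrArg ENNReal.toReal h1
  rw [ENNReal.toReal_add (fin_set q _) (fin_set q _), ENNReal.toReal_add (fin_set q _) (fin_set q _)] at h2
  linarith

theorem loss_ne (q : USq) (hn : |q.s| ≤ q.c) (hs : q.s ≠ 0) {D : Set ℝ} {d : ℝ} (hD : Per D d) (hd0 : 0 ≤ d) :
    (volume (q.set ∩ ((D ×ˢ univ) ∪ (univ ×ˢ D)))).toReal ≤
      2 * d - d ^ 2 + 5 * d * |q.s| ^ 2 := by
  have hs0 : 0 < |q.s| := abs_pos.2 hs
  have hc : 0 < q.c := by linarith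
  have hcs : q.c ^ 2 + |q.s| ^ 2 = 1 := by rw [sq_abs]; exact q.cs
  have hc1 : q.c ≤ 1 := by nlinarith
  have hs1 : |q.s| ≤ 1 := by nlinarith
  set s := |q.s| with hsd
  set w := q.c + s with hw
  set σ := w - 1 with hσ
  set ρ := w / 2 - q.c * s with hρ
  have hcs2 : q.c * s - σ = σ ^ 2 / 2 := by
    rw [hσ, hw]
    have : (q.c + s - 1) ^ 2 = q.c ^ 2 + s ^ 2 + 2 * (q.c * s) - 2 * (q.c + s) + 1 := by ring
    rw [this, hcs]; ring
  have hσ0 : 0 ≤ σ := by rw [hσ, hw]; nlinarith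
  have hσ1 : σ ≤ 1 := by rw [hσ, hw]; linarith
  have hσp : σ ≤ q.c * s := by nlinarith [sq_nonneg σ]
  have hρ0 : 0 ≤ ρ := by rw [hρ, hw]; nlinarith
  obtain ⟨A1, A2, a1, a2, a3, a4, a5, a6, a7, a8, a9, a10⟩ := arcs hD hd0 q.a w (q.c * s) ρ (q.a - w / 2) σ hρ rfl hσ
    hσ0 hσp hρ0 hσ1
  obtain ⟨B1, B2, b1, b2, b3, b4, b5, b6, b7, b8, b9, b10⟩ := arcs hD hd0 q.b w (q.c * s) ρ (q.b - w / 2) σ hρ rfl hσ
    hσ0 hσp hρ0 hσ1
  have hΛ : 0 ≤ σ / (q.c * s) := div_nonneg hσ0 (by positivity)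
  have h1c : 0 ≤ 1 / q.c := by positivity
  have hX : (volume (q.set ∩ (D ×ˢ univ))).toReal ≤ σ / (q.c * s) * A2 + 1 / q.c * (d - A2) := by
    have h1 := X_le q hc hs (q.a - w / 2) σ rfl hσ hσ0 hσ1 hD.meas hD.per
    rw [a7, a8, ← hsd, ← ENNReal.ofReal_mul hΛ, ← ENNReal.ofReal_mul h1c,
      ← ENNReal.ofReal_add (mul_nonneg hΛ a3) (mul_nonneg h1c (by linarith))] at h1
    exact ENNReal.toReal_le_of_le_ofReal (add_nonneg (mul_nonneg hΛ a3) (mul_nonneg h1c (by linarith))) h1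
  have hY : (volume (q.set ∩ (univ ×ˢ D))).toReal ≤ σ / (q.c * s) * B2 + 1 / q.c * (d - B2) := by
    have hsw : |q.sw.s| = s := by simp only [USq.sw]; rw [abs_neg]
    have h1 := X_le q.sw hc (neg_ne_zero.2 hs) (q.b - w / 2) σ (by rw [hsw]; rfl) (by rw [hsw]; rfl) hσ0 hσ1 hD.meas hD.per
    rw [b7, b8, hsw] at h1
    have hcc : q.sw.c = q.c := rfl
    rw [hcc, ← ENNReal.ofReal_mul hΛ, ← ENNReal.ofReal_mul h1c,
      ← ENNReal.ofReal_add (mul_nonneg hΛ b3) (mul_nonneg h1c (by linarith))] at h1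
    rw [Y_eq q hD.meas]
    exact ENNReal.toReal_le_of_le_ofReal (add_nonneg (mul_nonneg hΛ b3) (mul_nonneg h1c (by linarith))) h1
  have hZ : d * (d - A1) + A1 * (d - B1) ≤ (volume (q.set ∩ (D ×ˢ D))).toReal := by
    have h1 := Z_ge q hc hs ρ rfl hD a5
    rw [a6, b6, ← ENNReal.ofReal_mul hd0, ← ENNReal.ofReal_mul a1,
      ← ENNReal.ofReal_add (mul_nonneg hd0 (by linarith)) (mul_nonneg a1 (by linarith))] at h1
    exact (ENNReal.ofReal_le_iff_le_toReal (fin_set q _)).1 h1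
  rw [union_real q hD.meas]
  have f1 := alg_sharp q.c s σ d A1 A2 B1 B2 hcs hs0 hn hσ hd0 a3 b3 a1 b1 a2 b2 a9 a10 b9 b10
  linarith

theorem loss (q : USq) (hn : |q.s| ≤ q.c) {D : Set ℝ} {d : ℝ} (hD : Per D d) (hd0 : 0 ≤ d) :
    (volume (q.set ∩ ((D ×ˢ univ) ∪ (univ ×ˢ D)))).toReal ≤
      2 * d - d ^ 2 + 5 * d * |q.s| ^ 2 := by
  by_cases hs : q.s = 0
  · have hc : q.c = 1 := by
      have h1 := q.cs
      have h2 : 0 ≤ q.c := (abs_nonneg _).trans hn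
      rw [hs] at h1
      nlinarith
    have hset : q.set = Ioo (q.a - 1/2) (q.a - 1/2 + 1) ×ˢ Ioo (q.b - 1/2) (q.b - 1/2 + 1) := by
      ext p
      rw [q.mem, hs, hc, mem_prod, mem_Ioo, mem_Ioo]
      constructor
      · rintro ⟨⟨h1, h2⟩, h3, h4⟩
        refine ⟨⟨?_, ?_⟩, ?_, ?_⟩ <;> linarith
      · rintro ⟨⟨h1, h2⟩, h3, h4⟩
        refine ⟨⟨?_, ?_⟩, ?_, ?_⟩ <;> linarith
    have e1 : volume (q.set ∩ (D ×ˢ univ)) = ENNReal.ofReal d := by
      rw [hset, prod_inter_prod, inter_univ, inter_comm, Measure.volume_eq_prod, Measure.prod_prod, vol_ioo_ioc,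
        hD.ioc, Real.volume_Ioo]
      simp
    have e2 : volume (q.set ∩ (univ ×ˢ D)) = ENNReal.ofReal d := by
      rw [hset, prod_inter_prod, inter_univ, inter_comm (Ioo (q.b - 1/2) _), Measure.volume_eq_prod, Measure.prod_prod,
        vol_ioo_ioc, hD.ioc, Real.volume_Ioo]
      simp
    have e3 : volume (q.set ∩ (D ×ˢ D)) = ENNReal.ofReal (d * d) := by
      rw [hset, prod_inter_prod, inter_comm, inter_comm (Ioo (q.b - 1/2) _), Measure.volume_eq_prod, Measure.prod_prod,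
        vol_ioo_ioc, vol_ioo_ioc, hD.ioc, hD.ioc, ENNReal.ofReal_mul hd0]
    rw [union_real q hD.meas, e1, e2, e3, ENNReal.toReal_ofReal hd0, ENNReal.toReal_ofReal (mul_nonneg hd0 hd0), hs]
    rw [abs_zero]
    nlinarith
  · exact loss_ne q hn hs hD hd0

end Pool.H10.SQ
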