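import Pool.Agent.H10.SQ.Loss2

/-! The master inequality `(n - k²)(1 - d)² ≤ C d W²`. -/

set_option autoImplicit false

namespace Pool.H10.SQ

open MeasureTheory Set

variable {ι : Type} [Fintype ι]

/-- averaging over the translates -/
lemma averaging {k : ℕ} {d : ℝ} {q : ι → USq} (h : Pk ((k : ℝ) + d) q) (hd0 : 0 ≤ d) (hd1 : d ≤ 1) :
    (Fintype.card ι : ℝ) ≤ ∑ i, (volume ((q i).set ∩ ((Dset d ×ˢ univ) ∪ (univ ×ˢ Dset d)))).toReal +
      (k * (1 - d)) ^ 2 := by
  have hD := Dset_per d hd1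
  set D := Dset d with hDd
  set S : Set (ℝ × ℝ) := (D ×ˢ univ) ∪ (univ ×ˢ D) with hS
  have hSm : MeasurableSet S := (hD.meas.prod MeasurableSet.univ).union (MeasurableSet.univ.prod hD.meas)
  have h1 : ∀ i, (volume ((q i).set ∩ S)).toReal + (volume ((q i).set \ S)).toReal = 1 := by
    intro i
    have h2 := measure_inter_add_sdiff (μ := volume) (q i).set hSm
    rw [(q i).vol] at h2
    have h3 : volume ((q i).set \ S) ≠ ⊤ := by
      refine ne_top_of_le_ne_top ?_ (measure_mono sdiff_subset)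
      rw [(q i).vol]; exact ENNReal.one_ne_top
    have h4 := congrArg ENNReal.toReal h2
    rw [ENNReal.toReal_add (fin_set _ _) h3, ENNReal.toReal_one] at h4
    exact h4
  have h2 : ∑ i, volume ((q i).set \ S) ≤ ENNReal.ofReal ((k * (1 - d)) ^ 2) := by
    have e1 : ∑ i, volume ((q i).set \ S) = volume (⋃ i, ((q i).set \ S)) := by
      rw [measure_iUnion (fun i j hij => (h.disj i j hij).mono sdiff_subset sdiff_subset)
        (fun i => (q i).meas.diff hSm), tsum_fintype]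
    rw [e1]
    have hsub : (⋃ i, ((q i).set \ S)) ⊆ (Icc 0 ((k : ℝ) + d) \ D) ×ˢ (Icc 0 ((k : ℝ) + d) \ D) := by
      intro p hp
      rw [mem_iUnion] at hp
      obtain ⟨i, hp1, hp2⟩ := hp
      have hK := h.box i hp1
      rw [K, mem_prod] at hK
      refine ⟨⟨hK.1, fun hh => hp2 (Or.inl ⟨hh, mem_univ _⟩)⟩, hK.2, fun hh => hp2 (Or.inr ⟨mem_univ _, hh⟩)⟩
    refine (measure_mono hsub).trans ?_
    rw [Measure.volume_eq_prod, Measure.prod_prod, pow_two, ENNReal.ofReal_mul (mul_nonneg (by positivity) (by linarith))]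
    have := vol_compl k d hd0 hd1
    exact mul_le_mul' this this
  have h3 : ∑ i, (volume ((q i).set \ S)).toReal ≤ (k * (1 - d)) ^ 2 := by
    have h4 := ENNReal.toReal_mono ENNReal.ofReal_ne_top h2
    rw [ENNReal.toReal_ofReal (by positivity), ENNReal.toReal_sum] at h4
    · exact h4
    · intro i _
      refine ne_top_of_le_ne_top ?_ (measure_mono sdiff_subset)
      rw [(q i).vol]; exact ENNReal.one_ne_top
  have h4 : (Fintype.card ι : ℝ) = ∑ i, ((volume ((q i).set ∩ S)).toReal + (volume ((q i).set \ S)).toReal) := by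
    rw [Finset.sum_congr rfl (fun i _ => h1 i)]
    simp
  rw [Finset.sum_add_distrib] at h4
  linarith

/-- the constant of the tilt inequality -/
def BT : ℝ := 9600000000 ^ 2 * 57

/-- the constant of the master inequality -/
def CM : ℝ := 10 * BT

lemma BT_pos : 0 < BT := by unfold BT; norm_num

lemma CM_pos : 0 < CM := by unfold CM BT; norm_num

/-- The master inequality. -/
theorem master {k : ℕ} {d : ℝ} {q : ι → USq} (h : Pk ((k : ℝ) + d) q) (hd0 : 0 ≤ d) (hd1 : d ≤ 1) :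
    ((Fintype.card ι : ℝ) - k ^ 2) * (1 - d) ^ 2 ≤ CM * d * (((k : ℝ) + d) ^ 2 - Fintype.card ι) ^ 2 := by
  have h1 := averaging h hd0 hd1
  have h2 := sum_tilt h (by positivity)
  have h3 : ∀ i, (volume ((q i).set ∩ ((Dset d ×ˢ univ) ∪ (univ ×ˢ Dset d)))).toReal ≤
      (2 * d - d ^ 2) + 10 * d * (q i).t ^ 2 := by
    intro i
    have g1 := loss (q i) (h.nrm i) (Dset_per d hd1) hd0
    set s := |(q i).s| with hs
    have hs0 : 0 ≤ s := abs_nonneg _
    have hcs : (q i).c ^ 2 + s ^ 2 = 1 := by rw [hs, sq_abs]; exact (q i).cs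
    have hc0 : 0 ≤ (q i).c := hs0.trans (h.nrm i)
    have ht : (q i).t = (q i).c * s := by rw [USq.t, abs_mul, abs_of_nonneg hc0]
    have hc2 : 1/2 ≤ (q i).c ^ 2 := by
      have : s ^ 2 ≤ (q i).c ^ 2 := pow_le_pow_left₀ hs0 (h.nrm i) 2
      linarith
    have ht2 : s ^ 2 ≤ 2 * (q i).t ^ 2 := by
      rw [ht, mul_pow]
      have := mul_le_mul_of_nonneg_right hc2 (sq_nonneg s)
      linarith
    have h9 : 5 * d * s ^ 2 ≤ 5 * d * (2 * (q i).t ^ 2) := mul_le_mul_of_nonneg_left ht2 (by linarith)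
    linarith
  have h4 : ∑ i, (volume ((q i).set ∩ ((Dset d ×ˢ univ) ∪ (univ ×ˢ Dset d)))).toReal ≤
      (Fintype.card ι : ℝ) * (2 * d - d ^ 2) + 10 * d * ∑ i, (q i).t ^ 2 := by
    refine (Finset.sum_le_sum fun i _ => h3 i).trans (le_of_eq ?_)
    rw [Finset.sum_add_distrib, Finset.sum_const, Finset.mul_sum, nsmul_eq_mul]
    rfl
  have h5 := mul_le_mul_of_nonneg_left h2 (show 0 ≤ 10 * d by linarith)
  have e1 : 10 * d * (9600000000 ^ 2 * 57 * (((k : ℝ) + d) ^ 2 - Fintype.card ι) ^ 2)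
      = CM * d * (((k : ℝ) + d) ^ 2 - Fintype.card ι) ^ 2 := by unfold CM BT; ring
  rw [e1] at h5
  nlinarith

end Pool.H10.SQ
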