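import Pool.Agent.H10.SQ.Basic

/-! A periodic set of density `d`. -/

set_option autoImplicit false

namespace Pool.H10.SQ

open MeasureTheory Set

/-- measurable, 1-periodic, of density `d` -/
structure Per (D : Set ℝ) (d : ℝ) : Prop where
  meas : MeasurableSet D
  per : ∀ x, x + 1 ∈ D ↔ x ∈ D
  dens : volume (D ∩ Ioc 0 1) = ENNReal.ofReal d

lemma per_int {D : Set ℝ} (h : ∀ x, x + 1 ∈ D ↔ x ∈ D) (m : ℤ) (x : ℝ) : x + m ∈ D ↔ x ∈ D := by
  induction m using Int.induction_on generalizing x with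
  | zero => simp
  | succ n ih =>
    push_cast
    rw [← add_assoc, h]
    exact_mod_cast ih x
  | pred n ih =>
    push_cast
    have := h (x + (-(n : ℝ) - 1))
    have e : x + (-(n : ℝ) - 1) + 1 = x + -(n : ℝ) := by ring
    rw [e] at this
    rw [← this]
    have := ih x
    push_cast at this
    exact this

lemma per_measure {D : Set ℝ} (hm : MeasurableSet D) (h : ∀ x, x + 1 ∈ D ↔ x ∈ D) (t u : ℝ) :
    volume (D ∩ Ioc t (t + 1)) = volume (D ∩ Ioc u (u + 1)) := by
  have h1 := isAddFundamentalDomain_Ioc (one_pos : (0:ℝ) < 1) t volume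
  have h2 := isAddFundamentalDomain_Ioc (one_pos : (0:ℝ) < 1) u volume
  refine h1.measure_set_eq h2 hm ?_
  rintro ⟨g, hg⟩
  obtain ⟨m, rfl⟩ := AddSubgroup.mem_zmultiples_iff.1 hg
  ext x
  rw [mem_preimage]
  show (m • (1:ℝ)) + x ∈ D ↔ x ∈ D
  rw [add_comm]
  simpa using per_int h m x

lemma Per.ioc {D : Set ℝ} {d : ℝ} (h : Per D d) (t : ℝ) : volume (D ∩ Ioc t (t + 1)) = ENNReal.ofReal d := by
  rw [per_measure h.meas h.per t 0, zero_add]
  exact h.dens

lemma vol_ioo_ioc (D : Set ℝ) (t u : ℝ) : volume (D ∩ Ioo t u) = volume (D ∩ Ioc t u) := by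
  apply measure_congr
  exact (ae_eq_refl D).inter Ioo_ae_eq_Ioc

lemma Per.big {D : Set ℝ} {d : ℝ} (h : Per D d) (l r : ℝ) (hlr : 1 ≤ r - l) :
    ENNReal.ofReal d ≤ volume (D ∩ Ioo l r) := by
  rw [← h.ioc l, ← vol_ioo_ioc]
  apply measure_mono
  apply inter_subset_inter_right
  apply Ioo_subset_Ioo_right
  linarith

lemma Per.d_nonneg_le {D : Set ℝ} {d : ℝ} (h : Per D d) : d ≤ 1 := by
  have h1 : volume (D ∩ Ioc 0 1) ≤ 1 := by
    refine (measure_mono inter_subset_right).trans ?_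
    rw [Real.volume_Ioc]; norm_num
  rw [h.dens] at h1
  exact ENNReal.ofReal_le_one.1 h1

/-- the strips `fract x < d` -/
def Dset (d : ℝ) : Set ℝ := {x | Int.fract x < d}

lemma Dset_per (d : ℝ) (hd1 : d ≤ 1) : Per (Dset d) d where
  meas := measurableSet_lt measurable_fract measurable_const
  per := by
    intro x
    show Int.fract (x + 1) < d ↔ Int.fract x < d
    rw [Int.fract_add_one]
  dens := by
    rw [← vol_ioo_ioc]
    have : Dset d ∩ Ioo 0 1 = Ioo 0 d := by
      ext x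
      rw [mem_inter_iff, mem_Ioo, mem_Ioo]
      constructor
      · rintro ⟨h1, h2, h3⟩
        have h4 : Int.fract x < d := h1
        rw [Int.fract_eq_self.2 ⟨h2.le, h3⟩] at h4
        exact ⟨h2, h4⟩
      · rintro ⟨h1, h2⟩
        refine ⟨?_, h1, by linarith⟩
        show Int.fract x < d
        rw [Int.fract_eq_self.2 ⟨h1.le, by linarith⟩]
        exact h2
    rw [this, Real.volume_Ioo, sub_zero]

lemma Per.ioc_nat {D : Set ℝ} {d : ℝ} (h : Per D d) (hd : 0 ≤ d) (k : ℕ) :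
    volume (D ∩ Ioc 0 (k : ℝ)) = ENNReal.ofReal (k * d) := by
  induction k with
  | zero => simp
  | succ k ih =>
    have e : D ∩ Ioc 0 ((k + 1 : ℕ) : ℝ) = (D ∩ Ioc 0 (k : ℝ)) ∪ (D ∩ Ioc (k : ℝ) ((k : ℝ) + 1)) := by
      rw [← inter_union_distrib_left, Ioc_union_Ioc_eq_Ioc (by positivity) (by linarith)]
      push_cast; rfl
    rw [e, measure_union _ (h.meas.inter measurableSet_Ioc), ih, h.ioc, ← ENNReal.ofReal_add (by positivity) hd]
    · congr 1; push_cast; ring
    · rw [Set.disjoint_left]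
      rintro x ⟨-, h1⟩ ⟨-, h2⟩
      linarith [h1.2, h2.1]

/-- the part of the container outside the strips -/
lemma vol_compl (k : ℕ) (d : ℝ) (hd0 : 0 ≤ d) (hd1 : d ≤ 1) :
    volume (Icc 0 ((k : ℝ) + d) \ Dset d) ≤ ENNReal.ofReal (k * (1 - d)) := by
  have hP := Dset_per d hd1
  have h1 : volume (Dset d ∩ Ioc 0 (k : ℝ)) = ENNReal.ofReal (k * d) := hP.ioc_nat hd0 k
  have hsub : Icc 0 ((k : ℝ) + d) \ Dset d ⊆ {0} ∪ (Ioc 0 (k : ℝ) \ Dset d) ∪ {(k : ℝ) + d} := by
    rintro x ⟨⟨g1, g2⟩, g3⟩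
    by_cases c1 : x = 0
    · left; left; exact c1
    by_cases c2 : x ≤ k
    · left; right
      exact ⟨⟨lt_of_le_of_ne g1 (Ne.symm c1), c2⟩, g3⟩
    right
    push Not at c2
    rcases lt_or_eq_of_le g2 with c3 | c3
    · exfalso
      apply g3
      show Int.fract x < d
      have hx : Int.fract x = x - k := by
        rw [Int.fract_eq_iff]
        refine ⟨by linarith, by linarith, ⟨k, by push_cast; ring⟩⟩
      rw [hx]; linarith
    · exact c3
  refine (measure_mono hsub).trans ?_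
  refine (measure_union_le _ _).trans ?_
  rw [Real.volume_singleton, add_zero]
  refine (measure_union_le _ _).trans ?_
  rw [Real.volume_singleton, zero_add]
  have h2 : Ioc 0 (k : ℝ) \ Dset d = Ioc 0 (k : ℝ) \ (Dset d ∩ Ioc 0 (k : ℝ)) := by
    ext x; simp only [mem_sdiff, mem_inter_iff]; tauto
  rw [h2, measure_sdiff inter_subset_right (hP.meas.inter measurableSet_Ioc).nullMeasurableSet (by rw [h1]; exact ENNReal.ofReal_ne_top), h1,
    Real.volume_Ioc, sub_zero, ← ENNReal.ofReal_sub _ (by positivity)]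
  apply le_of_eq; congr 1; ring

end Pool.H10.SQ
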