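import Pool.Agent.H10.SQ.Basic

/-! The side lemma: next to a piece of a side there is a nearly parallel square. -/

set_option autoImplicit false

namespace Pool.H10.SQ

open MeasureTheory Set

/-- the same square, direction turned by a right angle -/
def USq.rot (q : USq) : USq := ⟨q.a, q.b, -q.s, q.c, by have := q.cs; nlinarith⟩

lemma USq.set_rot (q : USq) : q.rot.set = q.set := by
  ext p
  rw [USq.mem, USq.mem]
  simp only [USq.rot]
  constructor
  · rintro ⟨⟨h1, h2⟩, h3, h4⟩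
    exact ⟨⟨by linarith, by linarith⟩, by linarith, by linarith⟩
  · rintro ⟨⟨h1, h2⟩, h3, h4⟩
    exact ⟨⟨by linarith, by linarith⟩, by linarith, by linarith⟩

lemma USq.t_rot (q : USq) : q.rot.t = q.t := by
  simp only [USq.t, USq.rot]
  rw [neg_mul, abs_neg, mul_comm]

lemma USq.normQ1 (q : USq) (h : q.c * q.s ≠ 0) :
    ∃ r : USq, r.set = q.set ∧ r.t = q.t ∧ 0 < r.c ∧ 0 < r.s := by
  have hc : q.c ≠ 0 := left_ne_zero_of_mul h
  have hs : q.s ≠ 0 := right_ne_zero_of_mul h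
  rcases lt_or_gt_of_ne hc with hc | hc <;> rcases lt_or_gt_of_ne hs with hs | hs
  · refine ⟨q.rot.rot, by rw [USq.set_rot, USq.set_rot], by rw [USq.t_rot, USq.t_rot], ?_, ?_⟩
    · simp only [USq.rot]; linarith
    · simp only [USq.rot]; linarith
  · refine ⟨q.rot.rot.rot, by rw [USq.set_rot, USq.set_rot, USq.set_rot],
      by rw [USq.t_rot, USq.t_rot, USq.t_rot], ?_, ?_⟩
    · simp only [USq.rot]; linarith
    · simp only [USq.rot]; linarith
  · refine ⟨q.rot, by rw [USq.set_rot], by rw [USq.t_rot], ?_, ?_⟩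
    · simp only [USq.rot]; linarith
    · simp only [USq.rot]; linarith
  · exact ⟨q, rfl, rfl, hc, hs⟩

/-- a vertical chord behind a guard line is short -/
lemma slice (T : USq) (h0 : T.t ≠ 0) (x1 t y1 y2 δ : ℝ) (ht : 0 < t) (hδ : 0 < δ)
    (h1 : (x1 + t, y1) ∈ T.set) (h2 : (x1 + t, y2) ∈ T.set)
    (hg : ∀ x y, x1 - δ < x → x < x1 → y1 ≤ y → y ≤ y2 → (x, y) ∉ T.set) : y2 - y1 ≤ t / T.t := by
  have h0' : T.c * T.s ≠ 0 := by
    intro h; apply h0; rw [USq.t, h, abs_zero]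
  obtain ⟨q, hq, hqt, hc, hs⟩ := T.normQ1 h0'
  rw [← hq] at h1 h2 hg
  rw [← hqt]
  have ht0 : q.t = q.c * q.s := by rw [USq.t, abs_of_pos (mul_pos hc hs)]
  rw [ht0]
  have hcs := q.cs
  by_contra hcon
  push Not at hcon
  rw [div_lt_iff₀ (mul_pos hc hs)] at hcon
  obtain ⟨t', ht1, ht2⟩ := exists_between (lt_min hcon (show t < t + δ by linarith))
  rw [lt_min_iff] at ht2
  obtain ⟨ht2, ht3⟩ := ht2
  have htp : 0 < t' := by linarith
  have e1 : q.s * (q.c / q.s * t') = q.c * t' := by field_simp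
  set y := y1 + q.c / q.s * t' with hyd
  have hk1 : q.c / q.s * t' ≤ y2 - y1 := by
    have h5 : q.c * q.s * (q.c / q.s * t') = q.c ^ 2 * t' := by field_simp
    have h6 : q.c ^ 2 * t' ≤ t' := by nlinarith [sq_nonneg q.s]
    have h7 : q.c * q.s * (q.c / q.s * t') ≤ q.c * q.s * (y2 - y1) := by rw [h5]; linarith
    exact le_of_mul_le_mul_left h7 (mul_pos hc hs)
  have hk0 : 0 < q.c / q.s * t' := by positivity
  refine hg (x1 + t - t') y (by linarith) (by linarith) (by linarith) (by linarith) ?_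
  rw [q.mem] at h1 h2 ⊢
  obtain ⟨⟨a1, a2⟩, a3, a4⟩ := h1
  obtain ⟨⟨b1, b2⟩, b3, b4⟩ := h2
  simp only at a1 a2 a3 a4 b1 b2 b3 b4 ⊢
  have e2 : q.c * (x1 + t - t' - q.a) + q.s * (y - q.b) = q.c * (x1 + t - q.a) + q.s * (y1 - q.b) := by
    rw [hyd]
    have : q.s * (y1 + q.c / q.s * t' - q.b) = q.s * (y1 - q.b) + q.s * (q.c / q.s * t') := by ring
    rw [this, e1]; ring
  have e3 : q.s * (q.s * t' + q.c * (q.c / q.s * t')) = t' := by
    have : q.s * (q.s * t' + q.c * (q.c / q.s * t')) = (q.c ^ 2 + q.s ^ 2) * t' := by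
      field_simp; ring
    rw [this, hcs, one_mul]
  have e4 : -q.s * (x1 + t - t' - q.a) + q.c * (y - q.b)
      = -q.s * (x1 + t - q.a) + q.c * (y1 - q.b) + (q.s * t' + q.c * (q.c / q.s * t')) := by
    rw [hyd]; ring
  have h8 : q.s * t' + q.c * (q.c / q.s * t') < q.c * (y2 - y1) := by
    have : q.s * (q.s * t' + q.c * (q.c / q.s * t')) < q.s * (q.c * (y2 - y1)) := by rw [e3]; linarith
    exact lt_of_mul_lt_mul_left this hs.le
  have h9 : 0 < q.s * t' + q.c * (q.c / q.s * t') := by positivity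
  refine ⟨⟨by rw [e2]; exact a1, by rw [e2]; exact a2⟩, by rw [e4]; linarith, ?_⟩
  rw [e4]
  have : q.c * (y2 - y1) = q.c * (y2 - q.b) - q.c * (y1 - q.b) := by ring
  linarith

/-- area of a tilted square in a thin rectangle behind a guard line -/
lemma area_le (T : USq) (x1 ε η0 κ μ δ : ℝ) (hε : 0 < ε) (hμ : 0 < μ) (hδ : 0 < δ) (hT : μ ≤ T.t)
    (hg : ∀ x y, x1 - δ < x → x < x1 → η0 < y → y < η0 + κ → (x, y) ∉ T.set) :
    volume (T.set ∩ (Ioo x1 (x1 + ε) ×ˢ Ioo η0 (η0 + κ))) ≤ ENNReal.ofReal (ε * (ε / μ)) := by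
  have hm : MeasurableSet (T.set ∩ (Ioo x1 (x1 + ε) ×ˢ Ioo η0 (η0 + κ))) :=
    T.meas.inter (measurableSet_Ioo.prod measurableSet_Ioo)
  rw [Measure.volume_eq_prod, Measure.prod_apply hm]
  have h1 : ∀ x, volume (Prod.mk x ⁻¹' (T.set ∩ (Ioo x1 (x1 + ε) ×ˢ Ioo η0 (η0 + κ))))
      ≤ (Ioo x1 (x1 + ε)).indicator (fun _ => ENNReal.ofReal (ε / μ)) x := by
    intro x
    by_cases hx : x ∈ Ioo x1 (x1 + ε)
    · rw [indicator_of_mem hx]
      refine (Real.volume_le_diam _).trans (Metric.ediam_le ?_)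
      have key : ∀ y y', y < y' → y ∈ Prod.mk x ⁻¹' (T.set ∩ (Ioo x1 (x1 + ε) ×ˢ Ioo η0 (η0 + κ))) →
          y' ∈ Prod.mk x ⁻¹' (T.set ∩ (Ioo x1 (x1 + ε) ×ˢ Ioo η0 (η0 + κ))) → y' - y ≤ ε / μ := by
        intro y y' hyy hy hy'
        simp only [mem_preimage, mem_inter_iff, mem_prod] at hy hy'
        have h3 := slice T (by linarith) x1 (x - x1) y y' δ (by linarith [hx.1]) hδ
          (by rw [add_sub_cancel]; exact hy.1) (by rw [add_sub_cancel]; exact hy'.1)
          (fun a b h4 h5 h6 h7 => hg a b h4 h5 (by linarith [hy.2.2.1]) (by linarith [hy'.2.2.2]))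
        refine h3.trans ?_
        have : 0 < T.t := by linarith
        apply div_le_div₀ hε.le (by linarith [hx.2]) hμ hT
      intro y hy y' hy'
      rw [edist_dist, Real.dist_eq]
      apply ENNReal.ofReal_le_ofReal
      rcases lt_trichotomy y y' with h | h | h
      · rw [abs_sub_comm, abs_of_pos (by linarith)]
        exact key y y' h hy hy'
      · rw [h, sub_self, abs_zero]; positivity
      · rw [abs_of_pos (by linarith)]
        exact key y' y h hy' hy
    · rw [indicator_of_notMem hx]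
      have : Prod.mk x ⁻¹' (T.set ∩ (Ioo x1 (x1 + ε) ×ˢ Ioo η0 (η0 + κ))) = ∅ := by
        ext y
        simp only [mem_preimage, mem_inter_iff, mem_prod, mem_empty_iff_false, iff_false]
        intro h
        exact hx h.2.1
      rw [this, measure_empty]
  refine (lintegral_mono h1).trans ?_
  rw [lintegral_indicator measurableSet_Ioo, lintegral_const, Measure.restrict_apply MeasurableSet.univ,
    univ_inter, Real.volume_Ioo, add_sub_cancel_left, ← ENNReal.ofReal_mul (by positivity)]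
  apply le_of_eq
  congr 1
  ring

/-- number of disjoint sets of area one in a region -/
lemma card_le_of_disj {ι : Type} (M : Finset ι) (A : ι → Set (ℝ × ℝ)) (hm : ∀ i ∈ M, MeasurableSet (A i))
    (h1 : ∀ i ∈ M, volume (A i) = 1) (hd : (M : Set ι).PairwiseDisjoint A) (B : Set (ℝ × ℝ))
    (hB : ∀ i ∈ M, A i ⊆ B) (c : ℝ) (hc : 0 ≤ c) (hv : volume B ≤ ENNReal.ofReal c) : (M.card : ℝ) ≤ c := by
  have h2 : volume (⋃ i ∈ M, A i) = (M.card : ENNReal) := by
    rw [measure_biUnion_finset hd hm, Finset.sum_congr rfl h1]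
    simp
  have h3 : (M.card : ENNReal) ≤ ENNReal.ofReal c := by
    rw [← h2]
    exact (measure_mono (iUnion₂_subset hB)).trans hv
  have h4 := ENNReal.toReal_mono (by simp) h3
  rw [ENNReal.toReal_natCast, ENNReal.toReal_ofReal hc] at h4
  exact h4

/-- the container -/
def K (X : ℝ) : Set (ℝ × ℝ) := Icc 0 X ×ˢ Icc 0 X

/-- a packing of open unit squares, with normalised directions -/
structure Pk {ι : Type} (X : ℝ) (q : ι → USq) : Prop where
  box : ∀ i, (q i).set ⊆ K X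
  disj : ∀ i j, i ≠ j → Disjoint (q i).set (q j).set
  nrm : ∀ i, |(q i).s| ≤ (q i).c

/-- the uncovered set -/
def U {ι : Type} (X : ℝ) (q : ι → USq) : Set (ℝ × ℝ) := K X \ ⋃ i, (q i).set

lemma K_meas (X : ℝ) : MeasurableSet (K X) := measurableSet_Icc.prod measurableSet_Icc

lemma U_meas {ι : Type} [Fintype ι] (X : ℝ) (q : ι → USq) : MeasurableSet (U X q) :=
  (K_meas X).diff (MeasurableSet.iUnion fun i => (q i).meas)

/-- the thin rectangle next to a side, in frame coordinates -/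
def R0 (η0 κ ε : ℝ) : Set (ℝ × ℝ) := Ioo (1/2) (1/2 + ε) ×ˢ Ioo η0 (η0 + κ)

lemma R0_meas (η0 κ ε : ℝ) : MeasurableSet (R0 η0 κ ε) := measurableSet_Ioo.prod measurableSet_Ioo

theorem side {ι : Type} [Fintype ι] {X : ℝ} {q : ι → USq} (h : Pk X q) (F : USq) (ex : ι → Prop)
    (η0 κ w δ : ℝ) (hκ0 : 0 < κ) (hκ1 : κ ≤ 1) (hw : 0 < w) (hwε : 2 * w / κ ≤ 1 / 2) (hδ : 0 < δ)
    (hR : F.fr ⁻¹' R0 η0 κ (2 * w / κ) ⊆ K X)
    (hex : ∀ i, ex i → Disjoint (q i).set (F.fr ⁻¹' R0 η0 κ (2 * w / κ)))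
    (hg : ∀ i, ¬ ex i → ∀ ξ η, 1/2 - δ < ξ → ξ < 1/2 → η0 < η → η < η0 + κ → F.un (ξ, η) ∉ (q i).set)
    (hwaste : volume (U X q ∩ F.fr ⁻¹' R0 η0 κ (2 * w / κ)) ≤ ENNReal.ofReal w) :
    ∃ i, ¬ ex i ∧ (∃ p, p ∈ (q i).set ∧ F.fr p ∈ R0 η0 κ (2 * w / κ)) ∧ ((q i).rel F).t ≤ 60 * w / κ ^ 2 := by
  classical
  by_contra hcon
  push Not at hcon
  set ε := 2 * w / κ with hε
  set μ := 60 * w / κ ^ 2 with hμ
  have hε0 : 0 < ε := by positivity
  have hμ0 : 0 < μ := by positivity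
  set R := F.fr ⁻¹' R0 η0 κ ε with hRd
  have hRm : MeasurableSet R := (R0_meas _ _ _).preimage F.continuous_fr.measurable
  have hvR : volume R = ENNReal.ofReal (2 * w) := by
    rw [hRd, F.vol_pre, R0, Measure.volume_eq_prod, Measure.prod_prod, Real.volume_Ioo, Real.volume_Ioo,
      ← ENNReal.ofReal_mul (by linarith)]
    congr 1
    rw [hε]; field_simp; ring
  set M : Finset ι := Finset.univ.filter (fun i => ¬ ex i ∧ ∃ p, p ∈ (q i).set ∧ F.fr p ∈ R0 η0 κ ε) with hM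
  -- area of one square in R
  have hone : ∀ i ∈ M, volume ((q i).set ∩ R) ≤ ENNReal.ofReal (ε * (ε / μ)) := by
    intro i hi
    rw [hM, Finset.mem_filter] at hi
    have h3 := hcon i hi.2.1 hi.2.2
    rw [(q i).set_rel F, hRd, ← preimage_inter, F.vol_pre]
    refine area_le _ (1/2) ε η0 κ μ δ hε0 hμ0 hδ h3.le ?_
    intro x y h4 h5 h6 h7 h8
    apply hg i hi.2.1 x y h4 h5 h6 h7
    rw [(q i).set_rel F, mem_preimage, F.fr_un]
    exact h8
  have hcard : (M.card : ℝ) ≤ 14 := by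
    refine card_le_of_disj M (fun i => ((q i).rel F).set) (fun i _ => USq.meas _) (fun i _ => USq.vol _) ?_
      (Ioo (-1) (5/2) ×ˢ Ioo (η0 - 3/2) (η0 + 5/2)) ?_ 14 (by norm_num) ?_
    · intro i _ j _ hij
      have hd := h.disj i j hij
      rw [(q i).set_rel F, (q j).set_rel F] at hd
      rw [Function.onFun, Set.disjoint_left]
      intro p h1 h2
      have h3 : F.un p ∈ F.fr ⁻¹' ((q i).rel F).set := by rw [mem_preimage, F.fr_un]; exact h1
      have h4 : F.un p ∈ F.fr ⁻¹' ((q j).rel F).set := by rw [mem_preimage, F.fr_un]; exact h2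
      exact Set.disjoint_left.1 hd h3 h4
    · intro i hi p hp
      rw [hM, Finset.mem_filter] at hi
      obtain ⟨z, hz1, hz2⟩ := hi.2.2
      rw [(q i).set_rel F, mem_preimage] at hz1
      have g1 := USq.outer' _ _ hz1
      have g2 := USq.outer' _ _ hp
      rw [abs_lt, abs_lt] at g1 g2
      obtain ⟨⟨k1, k2⟩, k3, k4⟩ := hz2
      rw [mem_prod, mem_Ioo, mem_Ioo]
      refine ⟨⟨?_, ?_⟩, ?_, ?_⟩ <;> linarith [g1.1.1, g1.1.2, g1.2.1, g1.2.2, g2.1.1, g2.1.2, g2.2.1, g2.2.2]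
    · rw [Measure.volume_eq_prod, Measure.prod_prod, Real.volume_Ioo, Real.volume_Ioo,
        ← ENNReal.ofReal_mul (by norm_num)]
      apply ENNReal.ofReal_le_ofReal
      ring_nf
      norm_num
  have hcov : R ⊆ (U X q ∩ R) ∪ ⋃ i ∈ M, ((q i).set ∩ R) := by
    intro p hp
    by_cases hpU : p ∈ U X q
    · exact Or.inl ⟨hpU, hp⟩
    · right
      have hpK := hR hp
      have : p ∈ ⋃ i, (q i).set := by
        by_contra h5
        exact hpU ⟨hpK, h5⟩
      rw [mem_iUnion] at this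
      obtain ⟨i, hi⟩ := this
      have hne : ¬ ex i := by
        intro h5
        exact Set.disjoint_left.1 (hex i h5) hi hp
      rw [mem_iUnion₂]
      refine ⟨i, ?_, hi, hp⟩
      rw [hM, Finset.mem_filter]
      exact ⟨Finset.mem_univ _, hne, p, hi, hp⟩
  have hsum : volume (⋃ i ∈ M, ((q i).set ∩ R)) ≤ ENNReal.ofReal (14 * (ε * (ε / μ))) := by
    refine (measure_biUnion_finset_le M _).trans ?_
    refine (Finset.sum_le_sum hone).trans ?_
    rw [Finset.sum_const, nsmul_eq_mul, ENNReal.ofReal_mul (p := 14) (by norm_num)]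
    refine mul_le_mul_left ?_ _
    rw [← ENNReal.ofReal_natCast]
    exact ENNReal.ofReal_le_ofReal hcard
  have htot : ENNReal.ofReal (2 * w) ≤ ENNReal.ofReal (w + 14 * (ε * (ε / μ))) := by
    rw [← hvR, ENNReal.ofReal_add hw.le (by positivity)]
    refine (measure_mono hcov).trans ((measure_union_le _ _).trans ?_)
    exact add_le_add hwaste hsum
  rw [ENNReal.ofReal_le_ofReal_iff (by positivity)] at htot
  have e : 14 * (ε * (ε / μ)) = 14 * 4 / 60 * w := by
    rw [hε, hμ]; field_simp; norm_num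
  rw [e] at htot
  linarith

end Pool.H10.SQ
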