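import Pool.Agent.H10.SQ.Side

/-! One step of the walk. -/

set_option autoImplicit false

namespace Pool.H10.SQ

open MeasureTheory Set

/-- uncovered area in a set -/
noncomputable def wst {ι : Type} (X : ℝ) (q : ι → USq) (B : Set (ℝ × ℝ)) : ℝ := (volume (U X q ∩ B)).toReal

lemma vol_K (X : ℝ) (hX : 0 ≤ X) : volume (K X) = ENNReal.ofReal (X ^ 2) := by
  rw [K, Measure.volume_eq_prod, Measure.prod_prod, Real.volume_Icc, sub_zero, ← ENNReal.ofReal_mul hX]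
  congr 1; ring

lemma vol_K_lt (X : ℝ) : volume (K X) < ⊤ := by
  rw [K, Measure.volume_eq_prod, Measure.prod_prod, Real.volume_Icc]
  exact ENNReal.mul_lt_top ENNReal.ofReal_lt_top ENNReal.ofReal_lt_top

lemma vol_U_ne {ι : Type} (X : ℝ) (q : ι → USq) (B : Set (ℝ × ℝ)) : volume (U X q ∩ B) ≠ ⊤ := by
  refine ne_top_of_le_ne_top (vol_K_lt X).ne (measure_mono ?_)
  intro p hp; exact hp.1.1

lemma wst_nonneg {ι : Type} (X : ℝ) (q : ι → USq) (B : Set (ℝ × ℝ)) : 0 ≤ wst X q B := ENNReal.toReal_nonneg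

lemma wst_mono {ι : Type} (X : ℝ) (q : ι → USq) {A B : Set (ℝ × ℝ)} (h : A ⊆ B) : wst X q A ≤ wst X q B :=
  ENNReal.toReal_mono (vol_U_ne X q B) (measure_mono (inter_subset_inter_right _ h))

lemma le_ofReal_wst {ι : Type} (X : ℝ) (q : ι → USq) {A B : Set (ℝ × ℝ)} (h : A ⊆ B) (w : ℝ)
    (hw : wst X q B ≤ w) : volume (U X q ∩ A) ≤ ENNReal.ofReal w := by
  rw [← ENNReal.ofReal_toReal (vol_U_ne X q A)]
  exact ENNReal.ofReal_le_ofReal ((wst_mono X q h).trans hw)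

/-- a box around a point -/
def Bx (u v r : ℝ) : Set (ℝ × ℝ) := Icc (u - r) (u + r) ×ˢ Icc (v - r) (v + r)

lemma R_sub_Bx (F : USq) (η0 κ ε : ℝ) (h1 : -(1/2) ≤ η0) (h2 : η0 + κ ≤ 1/2) (h3 : ε ≤ 1/2) :
    F.fr ⁻¹' R0 η0 κ ε ⊆ Bx F.a F.b 2 := by
  intro p hp
  obtain ⟨⟨k1, k2⟩, k3, k4⟩ := hp
  have hcs := F.cs
  have hp' := F.un_fr p
  set ξ := (F.fr p).1 with hξ
  set η := (F.fr p).2 with hη
  have e1 : p.1 - F.a = F.c * ξ - F.s * η := by
    have := congrArg Prod.fst hp'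
    simp only [USq.un] at this
    linarith
  have e2 : p.2 - F.b = F.s * ξ + F.c * η := by
    have := congrArg Prod.snd hp'
    simp only [USq.un] at this
    linarith
  have e3 : (p.1 - F.a) ^ 2 + (p.2 - F.b) ^ 2 = ξ ^ 2 + η ^ 2 := by
    rw [e1, e2]
    have : (F.c * ξ - F.s * η) ^ 2 + (F.s * ξ + F.c * η) ^ 2 = (F.c ^ 2 + F.s ^ 2) * (ξ ^ 2 + η ^ 2) := by ring
    rw [this, hcs, one_mul]
  have e4 : ξ ^ 2 + η ^ 2 ≤ 2 := by nlinarith
  have g1 : |p.1 - F.a| ≤ 2 := abs_le_of_sq_le_sq (by nlinarith [sq_nonneg (p.2 - F.b)]) (by norm_num)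
  have g2 : |p.2 - F.b| ≤ 2 := abs_le_of_sq_le_sq (by nlinarith [sq_nonneg (p.1 - F.a)]) (by norm_num)
  rw [abs_le] at g1 g2
  rw [Bx, mem_prod, mem_Icc, mem_Icc]
  exact ⟨⟨by linarith, by linarith⟩, by linarith, by linarith⟩

/-- the neighbour at a piece of a side -/
lemma step0 {ι : Type} [Fintype ι] {X : ℝ} {q : ι → USq} (h : Pk X q) (i : ι) (F : USq)
    (hFs : F.set = (q i).set) (hFt : F.t = (q i).t) (hFa : F.a = (q i).a) (hFb : F.b = (q i).b)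
    (η0 w : ℝ) (h1 : -(49/100) ≤ η0) (h2 : η0 + 1/100 ≤ 49/100) (hw0 : 0 < w)
    (hw1 : wst X q (Bx (q i).a (q i).b 2) ≤ w) (hw2 : 200 * w ≤ 1/1000)
    (hR : F.fr ⁻¹' R0 η0 (1/100) (1/1000) ⊆ K X) :
    ∃ j, j ≠ i ∧ (∃ ξ η, (1/2 < ξ ∧ ξ < 501/1000 ∧ η0 < η ∧ η < η0 + 1/100) ∧ F.un (ξ, η) ∈ (q j).set) ∧
      (q j).t ≤ (q i).t + 600000 * w := by
  have he : 2 * w / (1/100 : ℝ) = 200 * w := by ring
  have hsub : F.fr ⁻¹' R0 η0 (1/100) (2 * w / (1/100)) ⊆ F.fr ⁻¹' R0 η0 (1/100) (1/1000) := by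
    apply preimage_mono
    apply prod_mono
    · apply Ioo_subset_Ioo_right; rw [he]; linarith
    · exact subset_rfl
  have hex : ∀ k, k = i → Disjoint (q k).set (F.fr ⁻¹' R0 η0 (1/100) (2 * w / (1/100))) := by
    rintro k rfl
    rw [← hFs, Set.disjoint_left]
    intro p hp hp2
    rw [USq.set, mem_preimage] at hp
    exact absurd hp.1.2 (not_lt.2 hp2.1.1.le)
  have hg : ∀ k, ¬ k = i → ∀ ξ η, 1/2 - 1 < ξ → ξ < 1/2 → η0 < η → η < η0 + 1/100 → F.un (ξ, η) ∉ (q k).set := by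
    intro k hk ξ η g1 g2 g3 g4 g5
    refine Set.disjoint_left.1 (h.disj i k (Ne.symm hk)) ?_ g5
    rw [← hFs, USq.set, mem_preimage, F.fr_un]
    exact ⟨⟨by simp only; linarith, g2⟩, by simp only; linarith, by simp only; linarith⟩
  have hwaste : volume (U X q ∩ F.fr ⁻¹' R0 η0 (1/100) (2 * w / (1/100))) ≤ ENNReal.ofReal w := by
    refine le_ofReal_wst X q ?_ w hw1
    rw [← hFa, ← hFb]
    apply R_sub_Bx
    · linarith
    · linarith
    · rw [he]; linarith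
  obtain ⟨j, hj1, ⟨p, hp1, hp2⟩, hj3⟩ := side h F (fun k => k = i) η0 (1/100) w 1 (by norm_num) (by norm_num) hw0
    (by rw [he]; linarith) one_pos (hsub.trans hR) hex hg hwaste
  refine ⟨j, hj1, ?_, ?_⟩
  · obtain ⟨⟨k1, k2⟩, k3, k4⟩ := hp2
    refine ⟨(F.fr p).1, (F.fr p).2, ⟨k1, by rw [he] at k2; linarith, k3, k4⟩, ?_⟩
    rw [Prod.mk.eta, F.un_fr]
    exact hp1
  · have := (q j).t_tri F
    rw [hFt] at this
    have e : 60 * w / (1/100 : ℝ) ^ 2 = 600000 * w := by ring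
    rw [e] at hj3
    linarith

/-- disjoint squares of small tilt have separated centres -/
lemma sep {T P : USq} (hd : Disjoint T.set P.set) (hT : T.t ≤ 1/1000) (hP : P.t ≤ 1/1000) :
    999/1000 ≤ |T.a - P.a| ∨ 999/1000 ≤ |T.b - P.b| := by
  by_contra hcon
  push Not at hcon
  obtain ⟨h1, h2⟩ := hcon
  rw [abs_lt] at h1 h2
  have m1 : ((T.a + P.a) / 2, (T.b + P.b) / 2) ∈ T.set := by
    apply T.inner
    · simp only; rw [abs_lt]; constructor <;> linarith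
    · simp only; rw [abs_lt]; constructor <;> linarith
  have m2 : ((T.a + P.a) / 2, (T.b + P.b) / 2) ∈ P.set := by
    apply P.inner
    · simp only; rw [abs_lt]; constructor <;> linarith
    · simp only; rw [abs_lt]; constructor <;> linarith
  exact Set.disjoint_left.1 hd m1 m2

lemma small_dir (q : USq) (hn : |q.s| ≤ q.c) (ht : q.t ≤ 1/1000) :
    |q.s| ≤ 15/10000 ∧ 999/1000 ≤ q.c ∧ q.c ≤ 1 := by
  have hcs := q.cs
  have hs0 := abs_nonneg q.s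
  have hc0 : 0 ≤ q.c := hs0.trans hn
  have hs2 : |q.s| ^ 2 = q.s ^ 2 := sq_abs _
  have ht2 : q.c * |q.s| ≤ 1/1000 := by
    have : q.t = q.c * |q.s| := by rw [USq.t, abs_mul, abs_of_nonneg hc0]
    linarith
  have hc1 : 7/10 ≤ q.c := by
    by_contra hcon
    push Not at hcon
    nlinarith
  have hs1 : |q.s| ≤ 15/10000 := by nlinarith
  have hc2 : q.c ≤ 1 := by nlinarith
  refine ⟨hs1, ?_, hc2⟩
  nlinarith

/-- step to the right -/
lemma stepR {ι : Type} [Fintype ι] {X : ℝ} {q : ι → USq} (h : Pk X q) (i : ι)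
    (η0 w : ℝ) (h1 : -(49/100) ≤ η0) (h2 : η0 + 1/100 ≤ 49/100) (hw0 : 0 < w)
    (hw1 : wst X q (Bx (q i).a (q i).b 2) ≤ w) (ht : (q i).t + 600000 * w ≤ 1/1000)
    (hX1 : 0 ≤ (q i).a) (hX2 : (q i).a + 6/10 ≤ X) (hY1 : 1/100 ≤ (q i).b + η0) (hY2 : (q i).b + η0 + 2/100 ≤ X) :
    ∃ j, j ≠ i ∧ (q j).t ≤ (q i).t + 600000 * w ∧ 999/1000 ≤ (q j).a - (q i).a ∧ (q j).a - (q i).a ≤ 10025/10000 ∧
      -(502/1000) ≤ (q j).b - ((q i).b + η0) ∧ (q j).b - ((q i).b + η0) ≤ 512/1000 := by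
  have htn := (q i).t_nonneg
  obtain ⟨s1, c1, c2⟩ := small_dir (q i) (h.nrm i) (by linarith)
  rw [abs_le] at s1
  have hun : ∀ ξ η, 1/2 ≤ ξ → ξ ≤ 501/1000 → η0 ≤ η → η ≤ η0 + 1/100 →
      (498/1000 ≤ ((q i).un (ξ, η)).1 - (q i).a ∧ ((q i).un (ξ, η)).1 - (q i).a ≤ 502/1000 ∧
      -(15/10000) ≤ ((q i).un (ξ, η)).2 - ((q i).b + η0) ∧ ((q i).un (ξ, η)).2 - ((q i).b + η0) ≤ 115/10000) := by
    intro ξ η k1 k2 k3 k4
    simp only [USq.un]
    refine ⟨?_, ?_, ?_, ?_⟩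
    · nlinarith
    · nlinarith
    · nlinarith
    · nlinarith
  obtain ⟨j, hj1, ⟨ξ, η, ⟨k1, k2, k3, k4⟩, hz⟩, hj3⟩ := step0 h i (q i) rfl rfl rfl rfl η0 w h1 h2 hw0 hw1
    (by linarith) (by
      intro p hp
      obtain ⟨⟨k1, k2⟩, k3, k4⟩ := hp
      have := hun ((q i).fr p).1 ((q i).fr p).2 k1.le (by linarith) k3.le k4.le
      rw [Prod.mk.eta, (q i).un_fr] at this
      rw [K, mem_prod, mem_Icc, mem_Icc]
      refine ⟨⟨?_, ?_⟩, ?_, ?_⟩ <;> linarith [this.1, this.2.1, this.2.2.1, this.2.2.2])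
  refine ⟨j, hj1, hj3, ?_⟩
  obtain ⟨g1, g2, g3, g4⟩ := hun ξ η k1.le k2.le k3.le k4.le
  have ho := (q j).outer _ hz
  rw [abs_lt, abs_lt] at ho
  have hjt : (q j).t ≤ 1/1000 := by linarith
  obtain ⟨⟨o1, o2⟩, o3, o4⟩ := ho
  have b1 : -(502/1000) ≤ (q j).b - ((q i).b + η0) := by linarith
  have b2 : (q j).b - ((q i).b + η0) ≤ 512/1000 := by linarith
  have a1 : -(25/10000) ≤ (q j).a - (q i).a := by linarith
  have a2 : (q j).a - (q i).a ≤ 10025/10000 := by linarith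
  refine ⟨?_, a2, b1, b2⟩
  rcases sep (h.disj j i hj1) hjt (by linarith) with h5 | h5
  · rcases le_abs.1 h5 with h6 | h6
    · exact h6
    · exfalso; linarith
  · exfalso
    rcases le_abs.1 h5 with h6 | h6
    · linarith
    · linarith

/-- step up, at the right end of the side -/
lemma stepU {ι : Type} [Fintype ι] {X : ℝ} {q : ι → USq} (h : Pk X q) (i : ι)
    (w : ℝ) (hw0 : 0 < w)
    (hw1 : wst X q (Bx (q i).a (q i).b 2) ≤ w) (ht : (q i).t + 600000 * w ≤ 1/1000)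
    (hX1 : 0 ≤ (q i).a) (hX2 : (q i).a + 6/10 ≤ X) (hY1 : 0 ≤ (q i).b) (hY2 : (q i).b + 6/10 ≤ X) :
    ∃ j, j ≠ i ∧ (q j).t ≤ (q i).t + 600000 * w ∧ 999/1000 ≤ (q j).b - (q i).b ∧ (q j).b - (q i).b ≤ 10025/10000 ∧
      -(22/1000) ≤ (q j).a - (q i).a ∧ (q j).a - (q i).a ≤ 992/1000 := by
  have htn := (q i).t_nonneg
  obtain ⟨s1, c1, c2⟩ := small_dir (q i) (h.nrm i) (by linarith)
  rw [abs_le] at s1
  have hun : ∀ ξ η, 1/2 ≤ ξ → ξ ≤ 501/1000 → -(49/100) ≤ η → η ≤ -(48/100) →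
      (498/1000 ≤ ((q i).rot.un (ξ, η)).2 - (q i).b ∧ ((q i).rot.un (ξ, η)).2 - (q i).b ≤ 502/1000 ∧
      4785/10000 ≤ ((q i).rot.un (ξ, η)).1 - (q i).a ∧ ((q i).rot.un (ξ, η)).1 - (q i).a ≤ 4915/10000) := by
    intro ξ η k1 k2 k3 k4
    simp only [USq.un, USq.rot]
    refine ⟨?_, ?_, ?_, ?_⟩
    · nlinarith
    · nlinarith
    · nlinarith
    · nlinarith
  obtain ⟨j, hj1, ⟨ξ, η, ⟨k1, k2, k3, k4⟩, hz⟩, hj3⟩ := step0 h i (q i).rot (q i).set_rot (q i).t_rot rfl rfl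
    (-(49/100)) w (by norm_num) (by norm_num) hw0 hw1
    (by linarith) (by
      intro p hp
      obtain ⟨⟨k1, k2⟩, k3, k4⟩ := hp
      have := hun ((q i).rot.fr p).1 ((q i).rot.fr p).2 k1.le (by linarith) k3.le (by linarith)
      rw [Prod.mk.eta, (q i).rot.un_fr] at this
      rw [K, mem_prod, mem_Icc, mem_Icc]
      refine ⟨⟨?_, ?_⟩, ?_, ?_⟩ <;> linarith [this.1, this.2.1, this.2.2.1, this.2.2.2])
  refine ⟨j, hj1, hj3, ?_⟩
  obtain ⟨g1, g2, g3, g4⟩ := hun ξ η k1.le k2.le k3.le (by linarith)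
  have ho := (q j).outer _ hz
  rw [abs_lt, abs_lt] at ho
  have hjt : (q j).t ≤ 1/1000 := by linarith
  obtain ⟨⟨o1, o2⟩, o3, o4⟩ := ho
  have b1 : -(22/1000) ≤ (q j).a - (q i).a := by linarith
  have b2 : (q j).a - (q i).a ≤ 992/1000 := by linarith
  have a1 : -(25/10000) ≤ (q j).b - (q i).b := by linarith
  have a2 : (q j).b - (q i).b ≤ 10025/10000 := by linarith
  refine ⟨?_, a2, b1, b2⟩
  rcases sep (h.disj j i hj1) hjt (by linarith) with h5 | h5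
  · exfalso
    rcases le_abs.1 h5 with h6 | h6
    · linarith
    · linarith
  · rcases le_abs.1 h5 with h6 | h6
    · exact h6
    · exfalso; linarith

/-- step down, at the right end of the side -/
lemma stepD {ι : Type} [Fintype ι] {X : ℝ} {q : ι → USq} (h : Pk X q) (i : ι)
    (w : ℝ) (hw0 : 0 < w)
    (hw1 : wst X q (Bx (q i).a (q i).b 2) ≤ w) (ht : (q i).t + 600000 * w ≤ 1/1000)
    (hX1 : 0 ≤ (q i).a) (hX2 : (q i).a + 6/10 ≤ X) (hY1 : 6/10 ≤ (q i).b) (hY2 : (q i).b ≤ X) :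
    ∃ j, j ≠ i ∧ (q j).t ≤ (q i).t + 600000 * w ∧ 999/1000 ≤ (q i).b - (q j).b ∧ (q i).b - (q j).b ≤ 10025/10000 ∧
      -(22/1000) ≤ (q j).a - (q i).a ∧ (q j).a - (q i).a ≤ 992/1000 := by
  have htn := (q i).t_nonneg
  obtain ⟨s1, c1, c2⟩ := small_dir (q i) (h.nrm i) (by linarith)
  rw [abs_le] at s1
  have hun : ∀ ξ η, 1/2 ≤ ξ → ξ ≤ 501/1000 → 48/100 ≤ η → η ≤ 49/100 →
      (498/1000 ≤ (q i).b - ((q i).rot.rot.rot.un (ξ, η)).2 ∧ (q i).b - ((q i).rot.rot.rot.un (ξ, η)).2 ≤ 502/1000 ∧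
      4785/10000 ≤ ((q i).rot.rot.rot.un (ξ, η)).1 - (q i).a ∧ ((q i).rot.rot.rot.un (ξ, η)).1 - (q i).a ≤ 4915/10000) := by
    intro ξ η k1 k2 k3 k4
    simp only [USq.un, USq.rot]
    refine ⟨?_, ?_, ?_, ?_⟩
    · nlinarith
    · nlinarith
    · nlinarith
    · nlinarith
  obtain ⟨j, hj1, ⟨ξ, η, ⟨k1, k2, k3, k4⟩, hz⟩, hj3⟩ := step0 h i (q i).rot.rot.rot
    (by rw [USq.set_rot, USq.set_rot, USq.set_rot]) (by rw [USq.t_rot, USq.t_rot, USq.t_rot]) rfl rfl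
    (48/100) w (by norm_num) (by norm_num) hw0 hw1
    (by linarith) (by
      intro p hp
      obtain ⟨⟨k1, k2⟩, k3, k4⟩ := hp
      have := hun ((q i).rot.rot.rot.fr p).1 ((q i).rot.rot.rot.fr p).2 k1.le (by linarith) k3.le (by linarith)
      rw [Prod.mk.eta, (q i).rot.rot.rot.un_fr] at this
      rw [K, mem_prod, mem_Icc, mem_Icc]
      refine ⟨⟨?_, ?_⟩, ?_, ?_⟩ <;> linarith [this.1, this.2.1, this.2.2.1, this.2.2.2])
  refine ⟨j, hj1, hj3, ?_⟩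
  obtain ⟨g1, g2, g3, g4⟩ := hun ξ η k1.le k2.le k3.le (by linarith)
  have ho := (q j).outer _ hz
  rw [abs_lt, abs_lt] at ho
  have hjt : (q j).t ≤ 1/1000 := by linarith
  obtain ⟨⟨o1, o2⟩, o3, o4⟩ := ho
  have b1 : -(22/1000) ≤ (q j).a - (q i).a := by linarith
  have b2 : (q j).a - (q i).a ≤ 992/1000 := by linarith
  have a1 : -(25/10000) ≤ (q i).b - (q j).b := by linarith
  have a2 : (q i).b - (q j).b ≤ 10025/10000 := by linarith
  refine ⟨?_, a2, b1, b2⟩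
  rcases sep (h.disj j i hj1) hjt (by linarith) with h5 | h5
  · exfalso
    rcases le_abs.1 h5 with h6 | h6
    · linarith
    · linarith
  · rcases le_abs.1 h5 with h6 | h6
    · exfalso; linarith
    · linarith

/-- first step, from the left wall -/
lemma stepW {ι : Type} [Fintype ι] {X : ℝ} {q : ι → USq} (h : Pk X q)
    (y w : ℝ) (hw0 : 0 < w) (hw1 : wst X q (Icc 0 X ×ˢ Icc (y - 2) (y + 2)) ≤ w)
    (ht : 600000 * w ≤ 1/1000) (hX : 1 ≤ X) (hY1 : 1/2 ≤ y) (hY2 : y ≤ X - 1/2) :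
    ∃ j, (q j).t ≤ 600000 * w ∧ 499/1000 ≤ (q j).a ∧ (q j).a ≤ 502/1000 ∧ |(q j).b - y| ≤ 51/100 := by
  set F : USq := ⟨-(1/2), y, 1, 0, by norm_num⟩ with hF
  have hfr : ∀ p, F.fr p = (p.1 + 1/2, p.2 - y) := by
    intro p; simp only [USq.fr, hF]; ext <;> simp
  have hun : ∀ p, F.un p = (p.1 - 1/2, p.2 + y) := by
    intro p; simp only [USq.un, hF]; ext <;> simp <;> ring
  have he : 2 * w / (1/100 : ℝ) = 200 * w := by ring
  have hsub : F.fr ⁻¹' R0 (-(1/200)) (1/100) (2 * w / (1/100)) ⊆ Icc 0 X ×ˢ Icc (y - 2) (y + 2) := by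
    intro p hp
    rw [mem_preimage, hfr, he] at hp
    obtain ⟨⟨k1, k2⟩, k3, k4⟩ := hp
    simp only at k1 k2 k3 k4
    rw [mem_prod, mem_Icc, mem_Icc]
    refine ⟨⟨?_, ?_⟩, ?_, ?_⟩ <;> linarith
  have hRK : F.fr ⁻¹' R0 (-(1/200)) (1/100) (2 * w / (1/100)) ⊆ K X := by
    intro p hp
    rw [mem_preimage, hfr, he] at hp
    obtain ⟨⟨k1, k2⟩, k3, k4⟩ := hp
    simp only at k1 k2 k3 k4
    rw [K, mem_prod, mem_Icc, mem_Icc]
    refine ⟨⟨?_, ?_⟩, ?_, ?_⟩ <;> linarith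
  have hg : ∀ k, ¬ False → ∀ ξ η, 1/2 - 1 < ξ → ξ < 1/2 → -(1/200) < η → η < -(1/200) + 1/100 →
      F.un (ξ, η) ∉ (q k).set := by
    intro k _ ξ η g1 g2 g3 g4 g5
    have := (h.box k g5).1.1
    rw [hun] at this
    simp only at this
    linarith
  obtain ⟨j, -, ⟨p, hp1, hp2⟩, hj3⟩ := side h F (fun _ => False) (-(1/200)) (1/100) w 1 (by norm_num) (by norm_num) hw0
    (by rw [he]; linarith) one_pos hRK (fun _ hh => hh.elim) hg (le_ofReal_wst X q hsub w hw1)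
  · have e : 60 * w / (1/100 : ℝ) ^ 2 = 600000 * w := by ring
    rw [e] at hj3
    have htj : (q j).t ≤ 600000 * w := by
      have := (q j).t_tri F
      have h0 : F.t = 0 := by simp [USq.t, hF]
      linarith
    rw [hfr, he] at hp2
    obtain ⟨⟨k1, k2⟩, k3, k4⟩ := hp2
    simp only at k1 k2 k3 k4
    have ho := (q j).outer _ hp1
    rw [abs_lt, abs_lt] at ho
    obtain ⟨⟨o1, o2⟩, o3, o4⟩ := ho
    refine ⟨j, htj, ?_, by linarith, ?_⟩
    · by_contra hcon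
      push Not at hcon
      -- a point of the inner box with negative first coordinate
      have htn := (q j).t_nonneg
      have hin : ((q j).a - 4992/10000, (q j).b) ∈ (q j).set := by
        apply (q j).inner
        · simp only; rw [abs_lt]; constructor <;> linarith
        · simp only; rw [abs_lt]; constructor <;> linarith
      have := (h.box j hin).1.1
      simp only at this
      linarith
    · rw [abs_le]; constructor <;> linarith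

end Pool.H10.SQ
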